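import Pool.Agent.X96.LV.Id

/-!
Bounds in `L²` and `L³` for the vorticity and for `Λ u`.
-/

open MeasureTheory Set Filter Topology
open scoped ContDiff ENNReal
open H459R3.NS

namespace Pool.Agent.X96.LV

open Pool.Agent.X96.HT

variable {v : V → V}

/-- coefficients of the vorticity -/
noncomputable def cu (v : V → V) : Fin 3 → K3 → ℂ :=
  ![fun k => D 1 (fr fun y => v y 2) k - D 2 (fr fun y => v y 1) k,
    fun k => D 2 (fr fun y => v y 0) k - D 0 (fr fun y => v y 2) k,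
    fun k => D 0 (fr fun y => v y 1) k - D 1 (fr fun y => v y 0) k]

lemma S_sub {a b : K3 → ℂ} (ha : Summable a) (hb : Summable b) (x : V) :
    S (fun k => a k - b k) x = S a x - S b x := by
  unfold S
  rw [← (summable_term ha x).tsum_sub (summable_term hb x)]
  exact tsum_congr fun k => by ring

lemma D_summable (hv : ∀ i, SP (fun x => v x i)) (i j : Fin 3) :
    Summable (D j (fr fun y => v y i)) := ((rap_fr (hv i)).D j).summable

lemma cu_summable (hv : ∀ i, SP (fun x => v x i)) (i : Fin 3) : Summable (cu v i) := by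
  fin_cases i
  · exact (D_summable hv 2 1).sub (D_summable hv 1 2)
  · exact (D_summable hv 0 2).sub (D_summable hv 2 0)
  · exact (D_summable hv 1 0).sub (D_summable hv 0 1)

lemma S_D (hv : ∀ i, SP (fun x => v x i)) (i j : Fin 3) (x : V) :
    S (D j (fr fun y => v y i)) x = ((pd j (fun y => v y i) x : ℝ) : ℂ) := by
  rw [← fr_pd (hv i) j, S_fr ((hv i).pd j)]

lemma S_cu (hv : ∀ i, SP (fun x => v x i)) (i : Fin 3) (x : V) :
    S (cu v i) x = ((curl v x i : ℝ) : ℂ) := by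
  fin_cases i
  · show S (fun k => D 1 (fr fun y => v y 2) k - D 2 (fr fun y => v y 1) k) x = _
    rw [S_sub (D_summable hv 2 1) (D_summable hv 1 2), S_D hv, S_D hv, ← Complex.ofReal_sub]
    rfl
  · show S (fun k => D 2 (fr fun y => v y 0) k - D 0 (fr fun y => v y 2) k) x = _
    rw [S_sub (D_summable hv 0 2) (D_summable hv 2 0), S_D hv, S_D hv, ← Complex.ofReal_sub]
    rfl
  · show S (fun k => D 0 (fr fun y => v y 1) k - D 1 (fr fun y => v y 0) k) x = _
    rw [S_sub (D_summable hv 1 0) (D_summable hv 0 1), S_D hv, S_D hv, ← Complex.ofReal_sub]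
    rfl

lemma norm_D_le (i j : Fin 3) (k : K3) :
    ‖D j (fr fun y => v y i) k‖ ≤ 2 * Real.pi * kn k * ‖co v k i‖ := by
  have hpi := Real.pi_pos
  unfold D
  rw [norm_mul, norm_mul, norm_mul, norm_mul, Complex.norm_I, mul_one, Complex.norm_two,
    Complex.norm_real, Real.norm_eq_abs, abs_of_pos hpi, Complex.norm_intCast]
  have h1 : |(k j : ℝ)| ≤ kn k := by
    refine Real.abs_le_sqrt ?_
    exact Finset.single_le_sum (f := fun j => (k j : ℝ) ^ 2) (fun i _ => sq_nonneg _)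
      (Finset.mem_univ j)
  have e : co v k i = fr (fun y => v y i) k := rfl
  rw [e]
  gcongr

/-- bound of the coefficients of the vorticity -/
lemma sum_cu (k : K3) : ∑ i, ‖cu v i k‖ ^ 2
    ≤ 16 * Real.pi ^ 2 * (kn k ^ 2 * ∑ i, ‖co v k i‖ ^ 2) := by
  have key : ∀ a b : Fin 3, ∀ c d : Fin 3,
      ‖D a (fr fun y => v y b) k - D c (fr fun y => v y d) k‖ ^ 2
      ≤ 8 * Real.pi ^ 2 * kn k ^ 2 * (‖co v k b‖ ^ 2 + ‖co v k d‖ ^ 2) := by
    intro a b c d
    have h1 := norm_D_le (v := v) b a k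
    have h2 := norm_D_le (v := v) d c k
    have h3 := norm_sub_le (D a (fr fun y => v y b) k) (D c (fr fun y => v y d) k)
    set X := 2 * Real.pi * kn k with hX
    have hX0 : 0 ≤ X := by have := kn_nonneg k; positivity
    have h4 : ‖D a (fr fun y => v y b) k - D c (fr fun y => v y d) k‖
        ≤ X * (‖co v k b‖ + ‖co v k d‖) := by
      rw [mul_add]
      linarith
    calc ‖D a (fr fun y => v y b) k - D c (fr fun y => v y d) k‖ ^ 2
        ≤ (X * (‖co v k b‖ + ‖co v k d‖)) ^ 2 := by gcongr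
      _ = X ^ 2 * (‖co v k b‖ + ‖co v k d‖) ^ 2 := by ring
      _ ≤ X ^ 2 * (2 * (‖co v k b‖ ^ 2 + ‖co v k d‖ ^ 2)) := by
          gcongr
          nlinarith [sq_nonneg (‖co v k b‖ - ‖co v k d‖)]
      _ = _ := by rw [hX]; ring
  rw [Fin.sum_univ_three, Fin.sum_univ_three]
  have e0 : ‖cu v 0 k‖ ^ 2 ≤ _ := key 1 2 2 1
  have e1 : ‖cu v 1 k‖ ^ 2 ≤ _ := key 2 0 0 2
  have e2 : ‖cu v 2 k‖ ^ 2 ≤ _ := key 0 1 1 0
  linarith

lemma norm_lc (a : ℝ) (i : Fin 3) (k : K3) :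
    ‖lc a v i k‖ ^ 2 = (2 * Real.pi * kn k) ^ (2 * a) * ‖co v k i‖ ^ 2 := by
  have hpi := Real.pi_pos
  have hk := kn_nonneg k
  unfold lc
  rw [norm_mul, Complex.norm_real, Real.norm_eq_abs,
    abs_of_nonneg (Real.rpow_nonneg (by positivity) _), mul_pow]
  congr 1
  rw [← Real.rpow_natCast, ← Real.rpow_mul (by positivity)]
  congr 1
  push_cast; ring

/-- `Λ v` -/
lemma sum_lc1 (k : K3) : ∑ i, ‖lc 1 v i k‖ ^ 2
    ≤ 16 * Real.pi ^ 2 * (kn k ^ 2 * ∑ i, ‖co v k i‖ ^ 2) := by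
  have hk := kn_nonneg k
  simp_rw [norm_lc]
  rw [← Finset.mul_sum]
  have e : (2 * Real.pi * kn k) ^ (2 * 1 : ℝ) = 4 * Real.pi ^ 2 * kn k ^ 2 := by
    rw [show (2 * 1 : ℝ) = ((2 : ℕ) : ℝ) by norm_num, Real.rpow_natCast]
    ring
  rw [e]
  have h0 : 0 ≤ Real.pi ^ 2 * (kn k ^ 2 * ∑ i, ‖co v k i‖ ^ 2) := by positivity
  linarith

/-- `Λ^{1/2} v` -/
lemma sum_lch (k : K3) : ∑ i, ‖lc (1 / 2) v i k‖ ^ 2
    ≤ 2 * Real.pi * (kn k ^ 1 * ∑ i, ‖co v k i‖ ^ 2) := by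
  simp_rw [norm_lc]
  rw [← Finset.mul_sum]
  have e : (2 * Real.pi * kn k) ^ (2 * (1 / 2) : ℝ) = 2 * Real.pi * kn k := by
    rw [show (2 * (1 / 2) : ℝ) = 1 by norm_num, Real.rpow_one]
  rw [e, pow_one]
  linarith

/-- `Λ^{3/2} v` -/
lemma sum_lc3 (k : K3) : ∑ i, ‖lc (3 / 2) v i k‖ ^ 2
    ≤ 8 * Real.pi ^ 3 * (kn k ^ 3 * ∑ i, ‖co v k i‖ ^ 2) := by
  simp_rw [norm_lc]
  rw [← Finset.mul_sum]
  have e : (2 * Real.pi * kn k) ^ (2 * (3 / 2) : ℝ) = 8 * Real.pi ^ 3 * kn k ^ 3 := by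
    rw [show (2 * (3 / 2) : ℝ) = ((3 : ℕ) : ℝ) by norm_num, Real.rpow_natCast]
    ring
  rw [e]
  linarith

/-- coefficients of `v` without the mean -/
noncomputable def mf (v : V → V) (i : Fin 3) (k : K3) : ℂ := if k = 0 then 0 else co v k i

/-- The mean of `v` over the period cell. -/
noncomputable def mean (v : V → V) : V := fun i => ∫ x in cube, v x i

lemma co_summable (hv : ∀ i, SP (fun x => v x i)) (i : Fin 3) : Summable fun k => co v k i :=
  (rap_fr (hv i)).summable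

lemma mf_summable (hv : ∀ i, SP (fun x => v x i)) (i : Fin 3) : Summable (mf v i) := by
  refine Summable.of_norm (Summable.of_nonneg_of_le (fun k => norm_nonneg _) (fun k => ?_)
    (co_summable hv i).norm)
  unfold mf
  split_ifs
  · simp
  · exact le_rfl

lemma co_at_zero (v : V → V) (i : Fin 3) : co v 0 i = ((mean v i : ℝ) : ℂ) := by
  unfold co fr fc mean
  rw [← integral_complex_ofReal]
  congr 1
  funext x
  rw [neg_zero, ee_zero, one_mul]

lemma S_mf (hv : ∀ i, SP (fun x => v x i)) (i : Fin 3) (x : V) :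
    S (mf v i) x = ((v x i - mean v i : ℝ) : ℂ) := by
  have h1 : S (fun k => co v k i) x = ((v x i : ℝ) : ℂ) := S_fr (hv i) x
  have e : mf v i = fun k => co v k i - (if k = 0 then co v 0 i else 0) := by
    funext k
    unfold mf
    split_ifs with h
    · rw [h]; ring
    · ring
  have hs : Summable fun k : K3 => if k = 0 then co v 0 i else 0 :=
    (hasSum_ite_eq (0 : K3) (co v 0 i)).summable
  rw [e, S_sub (co_summable hv i) hs, h1, Complex.ofReal_sub, ← co_at_zero]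
  congr 1
  unfold S
  have : (fun k : K3 => (if k = 0 then co v 0 i else 0) * ee k x)
      = fun k => if k = 0 then co v 0 i else 0 := by
    funext k
    split_ifs with h
    · rw [h, ee_zero, mul_one]
    · ring
  rw [this, tsum_ite_eq]

lemma sum_mf (k : K3) : ∑ i, ‖mf v i k‖ ^ 2 ≤ 1 * (kn k ^ 0 * ∑ i, ‖co v k i‖ ^ 2) := by
  rw [one_mul, pow_zero, one_mul]
  refine Finset.sum_le_sum fun i _ => ?_
  unfold mf
  split_ifs
  · rw [norm_zero, zero_pow (by norm_num)]; exact sq_nonneg _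
  · exact le_rfl

/-- the sum of the squares -/
noncomputable def sq3 (f : Fin 3 → K3 → ℂ) (x : V) : ℝ := ∑ i, ‖S (f i) x‖ ^ 2

lemma sq3_nonneg (f : Fin 3 → K3 → ℂ) (x : V) : 0 ≤ sq3 f x := by unfold sq3; positivity

lemma sq3_cont {f : Fin 3 → K3 → ℂ} (hf : ∀ i, Summable (f i)) : Continuous (sq3 f) := by
  unfold sq3
  exact continuous_finsetSum _ fun i _ => ((S_continuous (hf i)).norm.pow 2)

variable {U : K3 → C3} {f : Fin 3 → K3 → ℂ} {c : ℝ} {m : ℕ}

lemma each_sum (hU : RapV U) (h : ∀ k, ∑ i, ‖f i k‖ ^ 2 ≤ c * (kn k ^ m * ∑ i, ‖U k i‖ ^ 2))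
    (i : Fin 3) : Summable fun k => ‖f i k‖ ^ 2 := by
  refine Summable.of_nonneg_of_le (fun k => sq_nonneg _) (fun k => ?_)
    ((hU.hn_summable m).mul_left c)
  exact (Finset.single_le_sum (f := fun i => ‖f i k‖ ^ 2) (fun i _ => sq_nonneg _)
    (Finset.mem_univ i)).trans (h k)

/-- the bound in `L²` -/
lemma int2 (hU : RapV U) (hf : ∀ i, Summable (f i))
    (h : ∀ k, ∑ i, ‖f i k‖ ^ 2 ≤ c * (kn k ^ m * ∑ i, ‖U k i‖ ^ 2)) :
    ∫⁻ x in cube, ENNReal.ofReal (sq3 f x) ≤ ENNReal.ofReal (c * hn m U) := by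
  have e : ∀ x, ENNReal.ofReal (sq3 f x) = ∑ i, ENNReal.ofReal (‖S (f i) x‖ ^ 2) := fun x => by
    unfold sq3
    exact ENNReal.ofReal_sum_of_nonneg fun i _ => sq_nonneg _
  simp_rw [e]
  have hm : ∀ i, Measurable fun x => ENNReal.ofReal (‖S (f i) x‖ ^ 2) := fun i =>
    ((S_continuous (hf i)).norm.pow 2).measurable.ennreal_ofReal
  rw [lintegral_finset_sum _ fun i _ => hm i]
  have e2 : ∀ i, ∫⁻ x in cube, ENNReal.ofReal (‖S (f i) x‖ ^ 2)
      = ENNReal.ofReal (∑' k, ‖f i k‖ ^ 2) := by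
    intro i
    have hint : Integrable (fun x => ‖S (f i) x‖ ^ 2) (volume.restrict cube) :=
      integrableOn_cube ((S_continuous (hf i)).norm.pow 2)
    rw [← ofReal_integral_eq_lintegral_ofReal hint
      (Eventually.of_forall fun x => sq_nonneg _), integral_norm_sq (hf i), n2_sq]
  simp_rw [e2]
  rw [← ENNReal.ofReal_sum_of_nonneg fun i _ => tsum_nonneg fun k => sq_nonneg _]
  refine ENNReal.ofReal_le_ofReal ?_
  have hs := each_sum hU h
  rw [← Summable.tsum_finsetSum fun i _ => hs i]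
  unfold hn
  rw [← tsum_mul_left]
  exact (summable_sum fun i _ => hs i).tsum_le_tsum h ((hU.hn_summable m).mul_left c)

/-- the bound in `L³` -/
lemma int3 (hU : RapV U) (hf : ∀ i, Summable (f i)) (h0 : ∀ i, f i 0 = 0) (hc : 0 ≤ c)
    (h : ∀ k, ∑ i, ‖f i k‖ ^ 2 ≤ c * (kn k ^ m * ∑ i, ‖U k i‖ ^ 2)) :
    ∫⁻ x in cube, ENNReal.ofReal (sq3 f x ^ (3 / 2 : ℝ))
      ≤ ENNReal.ofReal (1040 * (c * hn (m + 1) U) ^ (3 / 2 : ℝ)) := by
  have e : ∀ x, ENNReal.ofReal (sq3 f x ^ (3 / 2 : ℝ))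
      ≤ ENNReal.ofReal (Real.sqrt 3) * ∑ i, ENNReal.ofReal (‖S (f i) x‖ ^ (3 : ℝ)) := by
    intro x
    rw [← ENNReal.ofReal_sum_of_nonneg fun i _ => by positivity,
      ← ENNReal.ofReal_mul (Real.sqrt_nonneg _)]
    refine ENNReal.ofReal_le_ofReal ?_
    have h1 := Real.rpow_sum_le_const_mul_sum_rpow (s := Finset.univ)
      (f := fun i => ‖S (f i) x‖ ^ 2) (p := 3 / 2) (by norm_num)
    have e1 : ∀ i, |‖S (f i) x‖ ^ 2| = ‖S (f i) x‖ ^ 2 := fun i => abs_of_nonneg (sq_nonneg _)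
    have e2 : ∀ i, (‖S (f i) x‖ ^ 2) ^ (3 / 2 : ℝ) = ‖S (f i) x‖ ^ (3 : ℝ) := fun i => by
      rw [← Real.rpow_natCast, ← Real.rpow_mul (norm_nonneg _)]
      norm_num
    simp_rw [e1, e2] at h1
    unfold sq3
    refine h1.trans (le_of_eq ?_)
    congr 1
    rw [Finset.card_univ, Fintype.card_fin, Real.sqrt_eq_rpow]
    norm_num
  refine (lintegral_mono e).trans ?_
  have hm : ∀ i, Measurable fun x => ENNReal.ofReal (‖S (f i) x‖ ^ (3 : ℝ)) := fun i =>
    ((S_continuous (hf i)).norm.rpow_const fun x => Or.inr (by norm_num)).measurable.ennreal_ofReal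
  rw [lintegral_const_mul _ (Finset.measurable_sum _ fun i _ => hm i),
    lintegral_finset_sum _ fun i _ => hm i]
  have hh := hn_nonneg (m + 1) U
  have hb : ∀ i, ∫⁻ x in cube, ENNReal.ofReal (‖S (f i) x‖ ^ (3 : ℝ))
      ≤ ENNReal.ofReal (200 * (c * hn (m + 1) U) ^ (3 / 2 : ℝ)) := by
    intro i
    have hle : ∀ k, (N k : ℝ) * ‖f i k‖ ^ 2 ≤ c * (kn k ^ (m + 1) * ∑ i, ‖U k i‖ ^ 2) := by
      intro k
      have hk := kn_nonneg k
      have h1 : ‖f i k‖ ^ 2 ≤ c * (kn k ^ m * ∑ i, ‖U k i‖ ^ 2) :=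
        (Finset.single_le_sum (f := fun i => ‖f i k‖ ^ 2) (fun i _ => sq_nonneg _)
          (Finset.mem_univ i)).trans (h k)
      calc (N k : ℝ) * ‖f i k‖ ^ 2 ≤ kn k * (c * (kn k ^ m * ∑ i, ‖U k i‖ ^ 2)) := by
            gcongr
            exact N_le_kn k
        _ = _ := by ring
    have hs : Summable fun k => (N k : ℝ) * ‖f i k‖ ^ 2 :=
      Summable.of_nonneg_of_le (fun k => by positivity) hle
        ((hU.hn_summable (m + 1)).mul_left c)
    refine l3 (hf i) (h0 i) hs ?_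
    refine (hs.tsum_le_tsum hle ((hU.hn_summable (m + 1)).mul_left c)).trans (le_of_eq ?_)
    rw [tsum_mul_left]
    rfl
  calc ENNReal.ofReal (Real.sqrt 3) * ∑ i, ∫⁻ x in cube, ENNReal.ofReal (‖S (f i) x‖ ^ (3 : ℝ))
      ≤ ENNReal.ofReal (Real.sqrt 3)
        * ∑ _i : Fin 3, ENNReal.ofReal (200 * (c * hn (m + 1) U) ^ (3 / 2 : ℝ)) := by
        gcongr with i
        exact hb i
    _ = ENNReal.ofReal (Real.sqrt 3 * (3 * (200 * (c * hn (m + 1) U) ^ (3 / 2 : ℝ)))) := by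
        rw [Finset.sum_const, Finset.card_univ, Fintype.card_fin, nsmul_eq_mul,
          ← ENNReal.ofReal_natCast, ← ENNReal.ofReal_mul (by norm_num),
          ← ENNReal.ofReal_mul (Real.sqrt_nonneg _)]
        norm_num
    _ ≤ _ := by
        refine ENNReal.ofReal_le_ofReal ?_
        have h1 : Real.sqrt 3 ≤ 1.7321 := by
          rw [Real.sqrt_le_left (by norm_num)]
          norm_num
        have h2 : 0 ≤ (c * hn (m + 1) U) ^ (3 / 2 : ℝ) := Real.rpow_nonneg (by positivity) _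
        nlinarith

end Pool.Agent.X96.LV
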