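import Pool.Agent.X96.LV.Bnd

/-!
The part of the production that comes from a field with few frequencies.
-/

open MeasureTheory Set Filter Topology
open scoped ContDiff ENNReal
open H459R3.NS

namespace Pool.Agent.X96.LV

open Pool.Agent.X96.HT

variable {v w : V → V} {A : ℝ} {Q : Set K3}

/-! ### The mean does not contribute -/

/-- `∫ Λ vᵢ ωⱼ` as a sum -/
lemma pair_sum (hv : ∀ i, SP (fun x => v x i)) (i j : Fin 3) :
    HasSum (fun k => lc 1 v i k * cu v j (-k))
      (∫ x in cube, S (lc 1 v i) x * ((curl v x j : ℝ) : ℂ)) := by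
  have h := integral_S_mul (lc_summable hv zero_le_one (by norm_num) i)
    (S_continuous (cu_summable hv j))
  simp_rw [integral_ee_S _ (cu_summable hv j), S_cu hv] at h
  exact h

lemma curl_cont (hv : ∀ i, SP (fun x => v x i)) (i : Fin 3) : Continuous fun x => curl v x i := by
  have : (fun x => curl v x i) = fun x => (S (cu v i) x).re := by
    funext x
    rw [S_cu hv, Complex.ofReal_re]
  rw [this]
  exact Complex.continuous_re.comp (S_continuous (cu_summable hv i))

/-- `∫ Λ vᵢ ωⱼ` is symmetric in `i`, `j`. -/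
lemma pair_symm (hv : ∀ i, SP (fun x => v x i))
    (hdiv : ∀ x, ∑ i, pd i (fun y => v y i) x = 0) {i j : Fin 3}
    (hF : ∀ k, (lc 1 v i k * cu v j (-k) - lc 1 v j k * cu v i (-k))
      + (lc 1 v i (-k) * cu v j (-(-k)) - lc 1 v j (-k) * cu v i (-(-k))) = 0) :
    ∫ x in cube, Lam 1 v x i * curl v x j = ∫ x in cube, Lam 1 v x j * curl v x i := by
  have h1 := (pair_sum hv i j).sub (pair_sum hv j i)
  have h2 := ((Equiv.neg K3).hasSum_iff.2 h1)
  have h3 := h1.add h2
  have e : (fun k => (lc 1 v i k * cu v j (-k) - lc 1 v j k * cu v i (-k))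
      + ((fun k => lc 1 v i k * cu v j (-k) - lc 1 v j k * cu v i (-k)) ∘ ⇑(Equiv.neg K3)) k)
      = fun _ => 0 := by
    funext k
    exact hF k
  rw [e] at h3
  have h4 := h3.unique hasSum_zero
  have h5 : (∫ x in cube, S (lc 1 v i) x * ((curl v x j : ℝ) : ℂ))
      - ∫ x in cube, S (lc 1 v j) x * ((curl v x i : ℝ) : ℂ) = 0 := by
    linear_combination (1 / 2 : ℂ) * h4
  have h6 := congrArg Complex.re h5
  rw [Complex.sub_re, re_integral (lc_summable hv zero_le_one (by norm_num) i) (curl_cont hv j),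
    re_integral (lc_summable hv zero_le_one (by norm_num) j) (curl_cont hv i),
    Complex.zero_re] at h6
  exact sub_eq_zero.1 h6

lemma lc_one (i : Fin 3) (k : K3) : lc 1 v i k = 2 * Real.pi * kn k * co v k i := by
  unfold lc
  rw [Real.rpow_one]
  push_cast
  ring

lemma cu_zero (k : K3) : cu v 0 k
    = 2 * Real.pi * Complex.I * ((k 1 : ℂ) * co v k 2 - (k 2 : ℂ) * co v k 1) := by
  show D 1 (fr fun y => v y 2) k - D 2 (fr fun y => v y 1) k = _
  unfold D co
  ring

lemma cu_one (k : K3) : cu v 1 k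
    = 2 * Real.pi * Complex.I * ((k 2 : ℂ) * co v k 0 - (k 0 : ℂ) * co v k 2) := by
  show D 2 (fr fun y => v y 0) k - D 0 (fr fun y => v y 2) k = _
  unfold D co
  ring

lemma cu_two (k : K3) : cu v 2 k
    = 2 * Real.pi * Complex.I * ((k 0 : ℂ) * co v k 1 - (k 1 : ℂ) * co v k 0) := by
  show D 0 (fr fun y => v y 1) k - D 1 (fr fun y => v y 0) k = _
  unfold D co
  ring

lemma pair21 (hv : ∀ i, SP (fun x => v x i))
    (hdiv : ∀ x, ∑ i, pd i (fun y => v y i) x = 0) :
    ∫ x in cube, Lam 1 v x 2 * curl v x 1 = ∫ x in cube, Lam 1 v x 1 * curl v x 2 := by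
  refine pair_symm hv hdiv fun k => ?_
  have h1 := dp_co hv hdiv k
  have h2 := dp_co hv hdiv (-k)
  unfold dp kc at h1 h2
  simp only [lc_one, cu_one, cu_two, neg_neg, kn_neg, Pi.neg_apply, Int.cast_neg] at *
  linear_combination (-(2 * Real.pi * kn k) * (2 * Real.pi * Complex.I)) *
    (co v (-k) 0 * h1 + co v k 0 * h2)

lemma pair02 (hv : ∀ i, SP (fun x => v x i))
    (hdiv : ∀ x, ∑ i, pd i (fun y => v y i) x = 0) :
    ∫ x in cube, Lam 1 v x 0 * curl v x 2 = ∫ x in cube, Lam 1 v x 2 * curl v x 0 := by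
  refine pair_symm hv hdiv fun k => ?_
  have h1 := dp_co hv hdiv k
  have h2 := dp_co hv hdiv (-k)
  unfold dp kc at h1 h2
  simp only [lc_one, cu_zero, cu_two, neg_neg, kn_neg, Pi.neg_apply, Int.cast_neg] at *
  linear_combination (-(2 * Real.pi * kn k) * (2 * Real.pi * Complex.I)) *
    (co v (-k) 1 * h1 + co v k 1 * h2)

lemma pair10 (hv : ∀ i, SP (fun x => v x i))
    (hdiv : ∀ x, ∑ i, pd i (fun y => v y i) x = 0) :
    ∫ x in cube, Lam 1 v x 1 * curl v x 0 = ∫ x in cube, Lam 1 v x 0 * curl v x 1 := by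
  refine pair_symm hv hdiv fun k => ?_
  have h1 := dp_co hv hdiv k
  have h2 := dp_co hv hdiv (-k)
  unfold dp kc at h1 h2
  simp only [lc_one, cu_zero, cu_one, neg_neg, kn_neg, Pi.neg_apply, Int.cast_neg] at *
  linear_combination (-(2 * Real.pi * kn k) * (2 * Real.pi * Complex.I)) *
    (co v (-k) 2 * h1 + co v k 2 * h2)

/-- A constant field contributes nothing. -/
lemma mean_det (hv : ∀ i, SP (fun x => v x i))
    (hdiv : ∀ x, ∑ i, pd i (fun y => v y i) x = 0) (m : V) :
    ∫ x in cube, det3 m (curl v x) (Lam 1 v x) = 0 := by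
  have hL : ∀ i, Continuous fun x => Lam 1 v x i := fun i =>
    Lam_continuous hv zero_le_one (by norm_num) i
  have hi : ∀ i j, Integrable (fun x => Lam 1 v x i * curl v x j) (volume.restrict cube) :=
    fun i j => integrableOn_cube ((hL i).mul (curl_cont hv j))
  have e : ∀ x, det3 m (curl v x) (Lam 1 v x)
      = m 0 * (Lam 1 v x 2 * curl v x 1 - Lam 1 v x 1 * curl v x 2)
      + m 1 * (Lam 1 v x 0 * curl v x 2 - Lam 1 v x 2 * curl v x 0)
      + m 2 * (Lam 1 v x 1 * curl v x 0 - Lam 1 v x 0 * curl v x 1) := fun x => by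
    unfold det3; ring
  simp_rw [e]
  have j0 := ((hi 2 1).sub (hi 1 2)).const_mul (m 0)
  have j1 := ((hi 0 2).sub (hi 2 0)).const_mul (m 1)
  have j2 := ((hi 1 0).sub (hi 0 1)).const_mul (m 2)
  simp only [Pi.sub_apply] at j0 j1 j2
  have j01 : Integrable (fun x => m 0 * (Lam 1 v x 2 * curl v x 1 - Lam 1 v x 1 * curl v x 2)
      + m 1 * (Lam 1 v x 0 * curl v x 2 - Lam 1 v x 2 * curl v x 0)) (volume.restrict cube) :=
    j0.add j1
  rw [integral_add j01 j2, integral_add j0 j1, integral_const_mul, integral_const_mul,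
    integral_const_mul, integral_sub (hi 2 1) (hi 1 2), integral_sub (hi 0 2) (hi 2 0),
    integral_sub (hi 1 0) (hi 0 1), pair21 hv hdiv, pair02 hv hdiv, pair10 hv hdiv]
  ring

/-! ### Few frequencies -/

lemma norm_le_bt {k : K3} (hk : k ≠ 0) (a : C3) : ‖a‖ ≤ bt k a := by
  have h := par_add hk a
  calc ‖a‖ = ‖par true k a + par false k a‖ := by rw [h]
    _ ≤ _ := norm_add_le _ _

lemma tz_Qw {U W : K3 → C3} (hU : RapV U) (hW : RapV W) (hQ : Planar A Q) :
    tz (xq Q W) (be U) (be U)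
    ≤ ENNReal.ofReal (108 * (Real.sqrt A * Real.sqrt (hn 3 U * hn 2 U * hn 1 W))) := by
  classical
  have hA := hQ.nonneg
  set η : K3 → ℝ≥0∞ := fun k => ENNReal.ofReal (Real.sqrt (kn k) * bt k (W k)) with hη
  set v : K3 → ℝ≥0∞ := fun k => if k ∈ Q then ENNReal.ofReal (1 / Real.sqrt (N k)) else 0 with hv
  have h1 : ∀ k, xq Q W k ≤ η k * v k := by
    intro k
    simp only [hη, hv, xq]
    by_cases hk : k ∈ Q
    · rw [if_pos hk, if_pos hk, ← ENNReal.ofReal_mul
        (mul_nonneg (Real.sqrt_nonneg _) (bt_nonneg _ _))]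
      refine ENNReal.ofReal_le_ofReal ?_
      by_cases hk0 : k = 0
      · subst hk0; rw [bt_zero]; simp
      have hN : 0 < (N k : ℝ) := by
        exact_mod_cast Nat.pos_of_ne_zero fun h => hk0 (N_eq_zero.1 h)
      have h2 : 1 ≤ Real.sqrt (kn k) * (1 / Real.sqrt (N k)) := by
        rw [mul_one_div, le_div_iff₀ (Real.sqrt_pos.2 hN), one_mul]
        exact Real.sqrt_le_sqrt (N_le_kn k)
      have h3 := bt_nonneg k (W k)
      calc bt k (W k) = bt k (W k) * 1 := (mul_one _).symm
        _ ≤ bt k (W k) * (Real.sqrt (kn k) * (1 / Real.sqrt (N k))) := by gcongr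
        _ = _ := by ring
    · rw [if_neg hk]; exact bot_le
  have h0 : xq Q W 0 = 0 := by
    unfold xq
    rw [bt_zero]; simp
  have hη2 : e2 η ≤ ENNReal.ofReal (3 * Real.sqrt (hn 1 W)) := by
    refine ofReal_tsum_sq (fun k => mul_nonneg (Real.sqrt_nonneg _) (bt_nonneg _ _))
      (by positivity) ((hW.hn_summable 1).mul_left 9) (fun k => ?_) ?_
    · have := bt_sq_le k (W k)
      have h0 := kn_nonneg k
      calc (Real.sqrt (kn k) * bt k (W k)) ^ 2 = kn k * bt k (W k) ^ 2 := by
            rw [mul_pow, Real.sq_sqrt h0]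
        _ ≤ kn k * (9 * ∑ i, ‖W k i‖ ^ 2) := by gcongr
        _ = _ := by ring
    · rw [tsum_mul_left, mul_pow, Real.sq_sqrt (hn_nonneg _ _)]
      unfold hn
      norm_num
  have h5 := tz_weight (β := be U) h0 h1 (planar_enn hQ)
  refine h5.trans ?_
  have e3 := hn_nonneg 3 U
  have e2' := hn_nonneg 2 U
  have e1 := hn_nonneg 1 W
  calc 2 * (e2 η * e2 (be U) * (ENNReal.ofReal (4 * A) * ∑' q, N q * be U q ^ 2) ^ (1 / 2 : ℝ))
      ≤ ENNReal.ofReal 2 * (ENNReal.ofReal (3 * Real.sqrt (hn 1 W))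
        * ENNReal.ofReal (3 * Real.sqrt (hn 2 U))
        * ENNReal.ofReal (3 * Real.sqrt (4 * A * hn 3 U))) := by
        gcongr
        · norm_num
        · exact e2_be hU
        · exact sqrt_piece hU (by positivity)
    _ = _ := by
      rw [← ENNReal.ofReal_mul (by positivity), ← ENNReal.ofReal_mul (by positivity),
        ← ENNReal.ofReal_mul (by positivity)]
      congr 1
      rw [Real.sqrt_mul (by positivity) (hn 3 U), Real.sqrt_mul (by positivity) A,
        Real.sqrt_mul (by positivity) (hn 1 W), Real.sqrt_mul (by positivity) (hn 2 U),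
        show (4 : ℝ) = 2 ^ 2 by norm_num, Real.sqrt_sq (by norm_num)]
      ring

lemma norm_cu_le (j : Fin 3) (k : K3) : ‖cu v j k‖ ≤ 4 * Real.pi * (kn k * bt k (co v k)) := by
  by_cases hk : k = 0
  · subst hk
    have : cu v j 0 = 0 := by
      fin_cases j
      · show cu v 0 0 = 0
        rw [cu_zero]; simp
      · show cu v 1 0 = 0
        rw [cu_one]; simp
      · show cu v 2 0 = 0
        rw [cu_two]; simp
    rw [this, kn_zero]
    simp
  have hb := norm_le_bt hk (co v k)
  have hk0 := kn_nonneg k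
  have hpi := Real.pi_pos
  have key : ∀ a b : Fin 3, ∀ c d : Fin 3,
      ‖D a (fr fun y => v y b) k - D c (fr fun y => v y d) k‖
      ≤ 4 * Real.pi * (kn k * bt k (co v k)) := by
    intro a b c d
    have h1 := norm_D_le (v := v) b a k
    have h2 := norm_D_le (v := v) d c k
    have h3 := norm_sub_le (D a (fr fun y => v y b) k) (D c (fr fun y => v y d) k)
    have h4 : ‖co v k b‖ ≤ bt k (co v k) := (norm_le_pi_norm _ _).trans hb
    have h5 : ‖co v k d‖ ≤ bt k (co v k) := (norm_le_pi_norm _ _).trans hb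
    calc _ ≤ 2 * Real.pi * kn k * ‖co v k b‖ + 2 * Real.pi * kn k * ‖co v k d‖ := by linarith
      _ ≤ 2 * Real.pi * kn k * bt k (co v k) + 2 * Real.pi * kn k * bt k (co v k) := by gcongr
      _ = _ := by ring
  fin_cases j
  · exact key 1 2 2 1
  · exact key 2 0 0 2
  · exact key 0 1 1 0

lemma norm_lc_le (i : Fin 3) (k : K3) : ‖lc 1 v i k‖ ≤ 2 * Real.pi * (kn k * bt k (co v k)) := by
  have hk0 := kn_nonneg k
  have hpi := Real.pi_pos
  rw [lc_one]
  rw [norm_mul, norm_mul, norm_mul, Complex.norm_two, Complex.norm_real, Complex.norm_real,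
    Real.norm_eq_abs, Real.norm_eq_abs, abs_of_pos hpi, abs_of_nonneg hk0]
  by_cases hk : k = 0
  · subst hk
    rw [kn_zero]; simp
  have h4 : ‖co v k i‖ ≤ bt k (co v k) := (norm_le_pi_norm _ _).trans (norm_le_bt hk (co v k))
  calc 2 * Real.pi * kn k * ‖co v k i‖ ≤ 2 * Real.pi * kn k * bt k (co v k) := by gcongr
    _ = _ := by ring

lemma enorm_Tri_le (a b c : K3 → ℂ) :
    ‖Tri a b c‖ₑ ≤ tz (fun k => ‖a k‖ₑ) (fun k => ‖b k‖ₑ) fun k => ‖c k‖ₑ := by
  unfold Tri tz
  refine enorm_tsum_le_tsum_enorm.trans (le_of_eq ?_)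
  refine tsum_congr fun p => ?_
  rw [enorm_mul, enorm_mul]

lemma tz_scale (c d : ℝ≥0∞) (x y z : K3 → ℝ≥0∞) :
    tz x (fun k => c * y k) (fun k => d * z k) = c * d * tz x y z := by
  unfold tz
  rw [← ENNReal.tsum_mul_left]
  refine tsum_congr fun p => ?_
  ring

lemma tz_mono {x x' y y' z z' : K3 → ℝ≥0∞} (hx : ∀ k, x k ≤ x' k) (hy : ∀ k, y k ≤ y' k)
    (hz : ∀ k, z k ≤ z' k) : tz x y z ≤ tz x' y' z' := by
  unfold tz
  refine ENNReal.tsum_le_tsum fun p => ?_
  gcongr
  · exact hx _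
  · exact hy _
  · exact hz _

lemma one_term (hv : ∀ i, SP (fun x => v x i)) (hw : ∀ i, SP (fun x => w x i))
    (hQ : Planar A Q) (hwQ : ∀ k, k ≠ 0 → k ∉ Q → co w k = 0) (i j l : Fin 3) :
    |∫ x in cube, (w x i - mean w i) * (curl v x j * Lam 1 v x l)|
      ≤ 8 * Real.pi ^ 2 * (108 * (Real.sqrt A
        * Real.sqrt (hn 3 (co v) * hn 2 (co v) * hn 1 (co w)))) := by
  have hpi := Real.pi_pos
  have sm := mf_summable hw i
  have sc := cu_summable hv j
  have sl := lc_summable hv zero_le_one (by norm_num) l (a := 1)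
  have h1 := tri_eq sm sc sl
  have h2 : (Tri (mf w i) (cu v j) (lc 1 v l)).re
      = ∫ x in cube, (w x i - mean w i) * (curl v x j * Lam 1 v x l) := by
    rw [h1]
    have hi : Integrable (fun x => S (mf w i) x * (S (cu v j) x * S (lc 1 v l) x))
        (volume.restrict cube) :=
      integrableOn_cube ((S_continuous sm).mul ((S_continuous sc).mul (S_continuous sl)))
    have := integral_re (𝕜 := ℂ) hi
    simp only [RCLike.re_eq_complex_re] at this
    rw [← this]
    congr 1
    funext x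
    rw [S_mf hw, S_cu hv, ← mul_assoc, ← Complex.ofReal_mul, Complex.re_ofReal_mul, mul_assoc]
    rfl
  have h3 : ‖Tri (mf w i) (cu v j) (lc 1 v l)‖ₑ
      ≤ ENNReal.ofReal (8 * Real.pi ^ 2 * (108 * (Real.sqrt A
        * Real.sqrt (hn 3 (co v) * hn 2 (co v) * hn 1 (co w))))) := by
    refine (enorm_Tri_le _ _ _).trans ?_
    have hm : ∀ k, ‖mf w i k‖ₑ ≤ xq Q (co w) k := by
      intro k
      unfold mf xq
      by_cases hk : k = 0
      · rw [if_pos hk]; simp
      · rw [if_neg hk]
        by_cases hkQ : k ∈ Q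
        · rw [if_pos hkQ, ← ofReal_norm_eq_enorm]
          exact ENNReal.ofReal_le_ofReal ((norm_le_pi_norm _ _).trans (norm_le_bt hk _))
        · rw [if_neg hkQ, hwQ k hk hkQ]
          simp
    have hcu : ∀ k, ‖cu v j k‖ₑ ≤ ENNReal.ofReal (4 * Real.pi) * be (co v) k := by
      intro k
      unfold be
      rw [← ofReal_norm_eq_enorm, ← ENNReal.ofReal_mul (by positivity)]
      exact ENNReal.ofReal_le_ofReal (norm_cu_le j k)
    have hlc : ∀ k, ‖lc 1 v l k‖ₑ ≤ ENNReal.ofReal (2 * Real.pi) * be (co v) k := by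
      intro k
      unfold be
      rw [← ofReal_norm_eq_enorm, ← ENNReal.ofReal_mul (by positivity)]
      exact ENNReal.ofReal_le_ofReal (norm_lc_le l k)
    refine (tz_mono hm hcu hlc).trans ?_
    rw [tz_scale]
    calc _ ≤ ENNReal.ofReal (4 * Real.pi) * ENNReal.ofReal (2 * Real.pi)
          * ENNReal.ofReal (108 * (Real.sqrt A
            * Real.sqrt (hn 3 (co v) * hn 2 (co v) * hn 1 (co w)))) := by
          gcongr
          exact tz_Qw (rapV_co hv) (rapV_co hw) hQ
      _ = _ := by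
          rw [← ENNReal.ofReal_mul (by positivity), ← ENNReal.ofReal_mul (by positivity)]
          congr 1
          ring
  rw [← h2]
  refine (Complex.abs_re_le_norm _).trans ?_
  rw [← ofReal_norm_eq_enorm] at h3
  exact (ENNReal.ofReal_le_ofReal_iff (by positivity)).1 h3

/-- The contribution of a field with few frequencies. -/
theorem planar_term (hv : ∀ i, SP (fun x => v x i))
    (hdiv : ∀ x, ∑ i, pd i (fun y => v y i) x = 0) (hw : ∀ i, SP (fun x => w x i))
    (hQ : Planar A Q) (hwQ : ∀ k, k ≠ 0 → k ∉ Q → co w k = 0) :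
    |∫ x in cube, det3 (w x) (curl v x) (Lam 1 v x)|
      ≤ 51840 * (Real.sqrt A * Real.sqrt (hn 3 (co v) * hn 2 (co v) * hn 1 (co w))) := by
  have hL : ∀ i, Continuous fun x => Lam 1 v x i := fun i =>
    Lam_continuous hv zero_le_one (by norm_num) i
  have hc := curl_cont hv
  have hwc : ∀ i, Continuous fun x => w x i := fun i => (hw i).cont
  have hi : ∀ i j l, Integrable (fun x => (w x i - mean w i) * (curl v x j * Lam 1 v x l))
      (volume.restrict cube) :=
    fun i j l => integrableOn_cube (((hwc i).sub continuous_const).mul ((hc j).mul (hL l)))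
  have hid : Integrable (fun x => det3 (mean w) (curl v x) (Lam 1 v x))
      (volume.restrict cube) := by
    refine integrableOn_cube ?_
    have h0 := hc 0
    have h1 := hc 1
    have h2 := hc 2
    have l0 := hL 0
    have l1 := hL 1
    have l2 := hL 2
    unfold det3
    fun_prop
  set σ : Fin 6 → ℝ := ![1, -1, 1, -1, 1, -1] with hσ
  set ia : Fin 6 → Fin 3 := ![0, 0, 1, 1, 2, 2] with hia
  set ib : Fin 6 → Fin 3 := ![1, 2, 2, 0, 0, 1] with hib
  set ic : Fin 6 → Fin 3 := ![2, 1, 0, 2, 1, 0] with hic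
  have e : ∀ x, det3 (w x) (curl v x) (Lam 1 v x) = det3 (mean w) (curl v x) (Lam 1 v x)
      + ∑ n, σ n * ((w x (ia n) - mean w (ia n)) * (curl v x (ib n) * Lam 1 v x (ic n))) := by
    intro x
    simp only [Fin.sum_univ_six, hσ, hia, hib, hic, Matrix.cons_val_zero, Matrix.cons_val_one,
      Matrix.cons_val]
    unfold det3
    ring
  simp_rw [e]
  rw [integral_add hid (integrable_finsetSum _ fun n _ => (hi _ _ _).const_mul _),
    mean_det hv hdiv, zero_add, integral_finsetSum _ fun n _ => (hi _ _ _).const_mul _]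
  simp_rw [integral_const_mul]
  refine (Finset.abs_sum_le_sum_abs _ _).trans ?_
  set B := Real.sqrt A * Real.sqrt (hn 3 (co v) * hn 2 (co v) * hn 1 (co w)) with hB
  have hB0 : 0 ≤ B := by positivity
  have h1 : ∀ n : Fin 6, |σ n * ∫ x in cube, (w x (ia n) - mean w (ia n))
      * (curl v x (ib n) * Lam 1 v x (ic n))| ≤ 8 * Real.pi ^ 2 * (108 * B) := by
    intro n
    have hs : |σ n| = 1 := by
      fin_cases n <;> simp [hσ]
    rw [abs_mul, hs, one_mul]
    exact one_term hv hw hQ hwQ _ _ _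
  refine (Finset.sum_le_sum fun n _ => h1 n).trans ?_
  rw [Finset.sum_const, Finset.card_univ, Fintype.card_fin, nsmul_eq_mul]
  have hpi := Real.pi_lt_d2
  have hpi0 := Real.pi_pos
  have h2 : Real.pi ^ 2 ≤ 10 := by nlinarith
  push_cast
  nlinarith

end Pool.Agent.X96.LV
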