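import Pool.Agent.X96.LV.Hold
import Pool.Agent.X96.LV.Plan

/-!
The differential inequality for the norm of `H^{1/2}`.
-/

open MeasureTheory Set Filter Topology
open scoped ContDiff ENNReal
open H459R3.NS

namespace Pool.Agent.X96.LV

open Pool.Agent.X96.HT

/-- The Euclidean length of a vector. -/
noncomputable def len (a : V) : ℝ := Real.sqrt (∑ i, a i ^ 2)

lemma len_nonneg (a : V) : 0 ≤ len a := Real.sqrt_nonneg _

lemma len_sq (a : V) : len a ^ 2 = ∑ i, a i ^ 2 := Real.sq_sqrt (by positivity)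

variable {v w : V → V} {A : ℝ} {Q : Set K3}

lemma len_cont {F : V → V} (hF : ∀ i, Continuous fun x => F x i) :
    Continuous fun x => len (F x) := by
  unfold len
  exact Real.continuous_sqrt.comp (continuous_finsetSum _ fun i _ => (hF i).pow 2)

lemma len_curl (hv : ∀ i, SP (fun x => v x i)) (x : V) : len (curl v x) ^ 2 ≤ sq3 (cu v) x := by
  rw [len_sq]
  unfold sq3
  refine le_of_eq (Finset.sum_congr rfl fun i _ => ?_)
  rw [S_cu hv, Complex.norm_real, Real.norm_eq_abs, sq_abs]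

lemma len_Lam (a : ℝ) (x : V) : len (Lam a v x) ^ 2 ≤ sq3 (lc a v) x := by
  rw [len_sq]
  unfold sq3
  refine Finset.sum_le_sum fun i _ => ?_
  unfold Lam
  rw [← sq_abs]
  have := Complex.abs_re_le_norm (S (lc a v i) x)
  gcongr

lemma len_dev (hv : ∀ i, SP (fun x => v x i)) (x : V) : len (v x - mean v) ^ 2 ≤ sq3 (mf v) x := by
  rw [len_sq]
  unfold sq3
  refine le_of_eq (Finset.sum_congr rfl fun i _ => ?_)
  rw [S_mf hv, Complex.norm_real, Real.norm_eq_abs, sq_abs]
  rfl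

lemma pw2 {l s : ℝ} (hl : 0 ≤ l) (h : l ^ 2 ≤ s) :
    ENNReal.ofReal l ^ (2 : ℝ) ≤ ENNReal.ofReal s := by
  rw [ENNReal.ofReal_rpow_of_nonneg hl (by norm_num)]
  refine ENNReal.ofReal_le_ofReal ?_
  rw [show (2 : ℝ) = ((2 : ℕ) : ℝ) by norm_num, Real.rpow_natCast]
  exact h

lemma pw3 {l s : ℝ} (hl : 0 ≤ l) (h : l ^ 2 ≤ s) :
    ENNReal.ofReal l ^ (3 : ℝ) ≤ ENNReal.ofReal (s ^ (3 / 2 : ℝ)) := by
  rw [ENNReal.ofReal_rpow_of_nonneg hl (by norm_num)]
  refine ENNReal.ofReal_le_ofReal ?_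
  calc l ^ (3 : ℝ) = (l ^ 2) ^ (3 / 2 : ℝ) := by
        rw [← Real.rpow_natCast, ← Real.rpow_mul hl]
        norm_num
    _ ≤ _ := Real.rpow_le_rpow (sq_nonneg _) h (by norm_num)

/-- a field with a bound of its coefficients -/
lemma cls {U : K3 → C3} (hU : RapV U) {F : V → V} {f : Fin 3 → K3 → ℂ} {c : ℝ} {m : ℕ}
    (hf : ∀ i, Summable (f i)) (h0 : ∀ i, f i 0 = 0) (hc : 0 ≤ c)
    (h : ∀ k, ∑ i, ‖f i k‖ ^ 2 ≤ c * (kn k ^ m * ∑ i, ‖U k i‖ ^ 2))
    (hF : ∀ x, len (F x) ^ 2 ≤ sq3 f x) :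
    ∫⁻ x in cube, ENNReal.ofReal (len (F x)) ^ (2 : ℝ) ≤ ENNReal.ofReal (c * hn m U) ∧
    ∫⁻ x in cube, ENNReal.ofReal (len (F x)) ^ (3 : ℝ)
      ≤ ENNReal.ofReal (1040 * (c * hn (m + 1) U) ^ (3 / 2 : ℝ)) :=
  ⟨(lintegral_mono fun x => pw2 (len_nonneg _) (hF x)).trans (int2 hU hf h),
    (lintegral_mono fun x => pw3 (len_nonneg _) (hF x)).trans (int3 hU hf h0 hc h)⟩

lemma int_sq_le {U : K3 → C3} (hU : RapV U) {F : V → V} {f : Fin 3 → K3 → ℂ} {c : ℝ} {m : ℕ}
    (hf : ∀ i, Summable (f i)) (hc : 0 ≤ c)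
    (h : ∀ k, ∑ i, ‖f i k‖ ^ 2 ≤ c * (kn k ^ m * ∑ i, ‖U k i‖ ^ 2))
    (hFc : ∀ i, Continuous fun x => F x i) (hF : ∀ x, len (F x) ^ 2 ≤ sq3 f x) :
    ∫ x in cube, len (F x) ^ 2 ≤ c * hn m U := by
  have h1 : ∫⁻ x in cube, ENNReal.ofReal (len (F x) ^ 2) ≤ ENNReal.ofReal (c * hn m U) :=
    (lintegral_mono fun x => ENNReal.ofReal_le_ofReal (hF x)).trans (int2 hU hf h)
  have hint : Integrable (fun x => len (F x) ^ 2) (volume.restrict cube) :=
    integrableOn_cube ((len_cont hFc).pow 2)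
  rw [← ofReal_integral_eq_lintegral_ofReal hint (Eventually.of_forall fun x => sq_nonneg _)] at h1
  exact (ENNReal.ofReal_le_ofReal_iff (mul_nonneg hc (hn_nonneg _ _))).1 h1

/-- integrability and bound of a product -/
lemma prod_int {μ : Measure V} {f a b : V → ℝ} (hf : AEStronglyMeasurable f μ)
    (ha : AEStronglyMeasurable a μ) (hb : AEStronglyMeasurable b μ)
    (ha0 : ∀ x, 0 ≤ a x) (hb0 : ∀ x, 0 ≤ b x) {B : ℝ} (hB : 0 ≤ B)
    (h : ∫⁻ x, ‖f x‖ₑ * (ENNReal.ofReal (a x) * ENNReal.ofReal (b x)) ∂μ ≤ ENNReal.ofReal B) :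
    Integrable (fun x => f x * (a x * b x)) μ ∧ ∫ x, f x * (a x * b x) ∂μ ≤ B := by
  have e : ∀ x, ‖f x * (a x * b x)‖ₑ = ‖f x‖ₑ * (ENNReal.ofReal (a x) * ENNReal.ofReal (b x)) := by
    intro x
    rw [enorm_mul, enorm_mul, Real.enorm_of_nonneg (ha0 x), Real.enorm_of_nonneg (hb0 x)]
  have hi : Integrable (fun x => f x * (a x * b x)) μ := by
    refine ⟨hf.mul (ha.mul hb), ?_⟩
    unfold HasFiniteIntegral
    simp_rw [e]
    exact h.trans_lt ENNReal.ofReal_lt_top
  refine ⟨hi, ?_⟩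
  have h1 : ‖∫ x, f x * (a x * b x) ∂μ‖ₑ ≤ ENNReal.ofReal B := by
    refine (enorm_integral_le_lintegral_enorm _).trans ?_
    simp_rw [e]
    exact h
  rw [← ofReal_norm_eq_enorm, Real.norm_eq_abs] at h1
  exact (le_abs_self _).trans ((ENNReal.ofReal_le_ofReal_iff hB).1 h1)

/-- The condition at a fixed time. -/
structure Cond (p : ℝ≥0∞) (r σ A K ε β₁ β₂ γ : ℝ) (v : V → V) : Prop where
  ex : ∃ (w : V → V) (Q : Set K3) (f₁ f₂ g : V → ℝ), Planar A Q ∧ (∀ i, SP fun x => w x i) ∧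
    (∀ k, k ≠ 0 → k ∉ Q → co w k = 0) ∧ hn 1 (co w) ≤ K ^ 2 * hn 1 (co v) ∧
    AEStronglyMeasurable f₁ (volume.restrict cube) ∧
    AEStronglyMeasurable f₂ (volume.restrict cube) ∧
    AEStronglyMeasurable g (volume.restrict cube) ∧
    eLpNorm f₁ p (volume.restrict cube) ≤ ENNReal.ofReal β₁ ∧
    eLpNorm f₂ 3 (volume.restrict cube) ≤ ENNReal.ofReal ε ∧
    eLpNorm g (ENNReal.ofReal r) (volume.restrict cube) ≤ ENNReal.ofReal β₂ ∧
    ∀ᵐ x ∂(volume.restrict cube), det3 (v x - w x) (curl v x) (Lam 1 v x)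
      ≤ σ * len (Lam (3 / 2) v x) ^ 2
        + (f₁ x + f₂ x) * (len (curl v x) * len (Lam 1 v x))
        + g x * (len (v x - mean v) * (len (curl v x) + len (Lam 1 v x)))
        + γ * len (Lam (1 / 2) v x) ^ 2

lemma lc_zero {a : ℝ} (ha : a ≠ 0) (i : Fin 3) : lc a v i 0 = 0 := by
  unfold lc
  rw [kn_zero, mul_zero, Real.zero_rpow ha]
  simp

lemma cu_at_zero (i : Fin 3) : cu v i 0 = 0 := by
  fin_cases i
  · show cu v 0 0 = 0
    rw [LV.cu_zero]; simp
  · show cu v 1 0 = 0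
    rw [cu_one]; simp
  · show cu v 2 0 = 0
    rw [cu_two]; simp

lemma mf_zero (i : Fin 3) : mf v i 0 = 0 := if_pos rfl

/-- The bound of the production. -/
theorem prod_bound (hv : ∀ i, SP (fun x => v x i))
    (hdiv : ∀ x, ∑ i, pd i (fun y => v y i) x = 0) {p : ℝ≥0∞} (hp : 3 ≤ p) {r : ℝ}
    (hr : r ∈ Icc (3 : ℝ) 6) {σ A K ε β₁ β₂ γ : ℝ} (hσ : 0 ≤ σ) (hK : 0 ≤ K) (hε : 0 ≤ ε)
    (hβ₁ : 0 ≤ β₁) (hβ₂ : 0 ≤ β₂) (hγ : 0 ≤ γ) (hc : Cond p r σ A K ε β₁ β₂ γ v) :
    ∫ x in cube, det3 (v x) (curl v x) (Lam 1 v x)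
      ≤ σ * (8 * Real.pi ^ 3 * hn 3 (co v))
        + (β₁ * (121 * (16 * Real.pi ^ 2) * (hn 2 (co v) ^ (1 - 3 / p.toReal)
          * hn 3 (co v) ^ (3 / p.toReal)))
        + ε * (121 * (16 * Real.pi ^ 2) * hn 3 (co v)))
        + 2 * (β₂ * (121 * (4 * Real.pi) * (hn 1 (co v) ^ (1 / 2 : ℝ)
          * (hn 2 (co v) ^ (1 - 3 / r) * hn 3 (co v) ^ (3 / r - 1 / 2)))))
        + γ * (2 * Real.pi * hn 1 (co v))
        + 51840 * (Real.sqrt A * Real.sqrt (hn 3 (co v) * hn 2 (co v)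
          * (K ^ 2 * hn 1 (co v)))) := by
  obtain ⟨w, Q, f₁, f₂, g, hQ, hw, hwQ, hwK, m1, m2, m3, n1, n2', n3, hle⟩ := hc.ex
  have hpi := Real.pi_pos
  have hU := rapV_co hv
  have hX := hn_nonneg 3 (co v)
  have hY := hn_nonneg 2 (co v)
  have hZ := hn_nonneg 1 (co v)
  have hc1 := curl_cont hv
  have hL : ∀ a : ℝ, 0 ≤ a → a ≤ 3 → ∀ i, Continuous fun x => Lam a v x i := fun a h0 h3 i =>
    Lam_continuous hv h0 h3 i
  have hL1 := hL 1 zero_le_one (by norm_num)
  have hL3 := hL (3 / 2) (by norm_num) (by norm_num)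
  have hLh := hL (1 / 2) (by norm_num) (by norm_num)
  have hvc : ∀ i, Continuous fun x => v x i := fun i => (hv i).cont
  have hwc : ∀ i, Continuous fun x => w x i := fun i => (hw i).cont
  have hdc : ∀ i, Continuous fun x => (v x - mean v) i := fun i => (hvc i).sub continuous_const
  -- classes
  obtain ⟨ω2, ω3⟩ := cls hU (F := curl v) (cu_summable hv) cu_at_zero (by positivity) sum_cu
    (len_curl hv)
  obtain ⟨L2, L3'⟩ := cls hU (F := Lam 1 v) (fun i => lc_summable hv zero_le_one (by norm_num) i)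
    (fun i => lc_zero one_ne_zero i) (by positivity) sum_lc1 (len_Lam 1)
  obtain ⟨-, d3⟩ := cls hU (F := fun x => v x - mean v) (mf_summable hv) mf_zero zero_le_one
    sum_mf (len_dev hv)
  have q3 : ∫ x in cube, len (Lam (3 / 2) v x) ^ 2 ≤ 8 * Real.pi ^ 3 * hn 3 (co v) :=
    int_sq_le hU (fun i => lc_summable hv (by norm_num) (by norm_num) i) (by positivity) sum_lc3
      hL3 (len_Lam _)
  have qh : ∫ x in cube, len (Lam (1 / 2) v x) ^ 2 ≤ 2 * Real.pi * hn 1 (co v) :=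
    int_sq_le hU (fun i => lc_summable hv (by norm_num) (by norm_num) i) (by positivity) sum_lch
      hLh (len_Lam _)
  have lc' := len_cont hc1
  have ll := len_cont hL1
  have ld := len_cont hdc
  have sqc : Real.sqrt (16 * Real.pi ^ 2) = 4 * Real.pi := by
    rw [show 16 * Real.pi ^ 2 = (4 * Real.pi) ^ 2 by ring, Real.sqrt_sq (by positivity)]
  -- the products
  obtain ⟨i1, b1⟩ := prod_int (B := β₁ * (121 * (16 * Real.pi ^ 2)
      * (hn 2 (co v) ^ (1 - 3 / p.toReal) * hn 3 (co v) ^ (3 / p.toReal)))) m1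
    lc'.aestronglyMeasurable ll.aestronglyMeasurable (fun x => len_nonneg _)
    (fun x => len_nonneg _) (by positivity)
    (bound_F m1 lc'.measurable.ennreal_ofReal.aemeasurable
      ll.measurable.ennreal_ofReal.aemeasurable hp hβ₁ (by positivity) hX hY n1 ω2 ω3 L2 L3')
  obtain ⟨i2, b2⟩ := prod_int (B := ε * (121 * (16 * Real.pi ^ 2) * hn 3 (co v))) m2
    lc'.aestronglyMeasurable ll.aestronglyMeasurable (fun x => len_nonneg _)
    (fun x => len_nonneg _) (by positivity)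
    ((bound_F m2 lc'.measurable.ennreal_ofReal.aemeasurable
      ll.measurable.ennreal_ofReal.aemeasurable le_rfl hε (by positivity) hX hY n2' ω2 ω3 L2
      L3').trans (le_of_eq (by
        have e : 3 / (3 : ℝ≥0∞).toReal = 1 := by norm_num
        rw [e, sub_self, Real.rpow_zero, Real.rpow_one, one_mul])))
  obtain ⟨i3, b3⟩ := prod_int (B := β₂ * (121 * (4 * Real.pi) * (hn 1 (co v) ^ (1 / 2 : ℝ)
      * (hn 2 (co v) ^ (1 - 3 / r) * hn 3 (co v) ^ (3 / r - 1 / 2))))) m3
    ld.aestronglyMeasurable lc'.aestronglyMeasurable (fun x => len_nonneg _)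
    (fun x => len_nonneg _) (by positivity)
    ((bound_G m3 ld.measurable.ennreal_ofReal.aemeasurable
      lc'.measurable.ennreal_ofReal.aemeasurable hr hβ₂ (by positivity) hX hY hZ n3 d3 ω2
      ω3).trans (le_of_eq (by rw [sqc])))
  obtain ⟨i4, b4⟩ := prod_int (B := β₂ * (121 * (4 * Real.pi) * (hn 1 (co v) ^ (1 / 2 : ℝ)
      * (hn 2 (co v) ^ (1 - 3 / r) * hn 3 (co v) ^ (3 / r - 1 / 2))))) m3
    ld.aestronglyMeasurable ll.aestronglyMeasurable (fun x => len_nonneg _)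
    (fun x => len_nonneg _) (by positivity)
    ((bound_G m3 ld.measurable.ennreal_ofReal.aemeasurable
      ll.measurable.ennreal_ofReal.aemeasurable hr hβ₂ (by positivity) hX hY hZ n3 d3 L2
      L3').trans (le_of_eq (by rw [sqc])))
  have i5 : Integrable (fun x => len (Lam (3 / 2) v x) ^ 2) (volume.restrict cube) :=
    integrableOn_cube ((len_cont hL3).pow 2)
  have i6 : Integrable (fun x => len (Lam (1 / 2) v x) ^ 2) (volume.restrict cube) :=
    integrableOn_cube ((len_cont hLh).pow 2)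
  have detc : ∀ F : V → V, (∀ i, Continuous fun x => F x i) →
      Integrable (fun x => det3 (F x) (curl v x) (Lam 1 v x)) (volume.restrict cube) := by
    intro F hF
    refine integrableOn_cube ?_
    have h0 := hc1 0
    have h1 := hc1 1
    have h2 := hc1 2
    have l0 := hL1 0
    have l1 := hL1 1
    have l2 := hL1 2
    have f0 := hF 0
    have f1 := hF 1
    have f2 := hF 2
    unfold det3
    fun_prop
  have iw := detc w hwc
  have iu := detc (fun x => v x - w x) fun i => (hvc i).sub (hwc i)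
  have split : ∫ x in cube, det3 (v x) (curl v x) (Lam 1 v x)
      = (∫ x in cube, det3 (v x - w x) (curl v x) (Lam 1 v x))
        + ∫ x in cube, det3 (w x) (curl v x) (Lam 1 v x) := by
    rw [← integral_add iu iw]
    congr 1
    funext x
    unfold det3
    simp only [Pi.sub_apply]
    ring
  have hplan := planar_term hv hdiv hw hQ hwQ
  have hmain : ∫ x in cube, det3 (v x - w x) (curl v x) (Lam 1 v x)
      ≤ ∫ x in cube, (σ * len (Lam (3 / 2) v x) ^ 2
        + (f₁ x * (len (curl v x) * len (Lam 1 v x))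
        + f₂ x * (len (curl v x) * len (Lam 1 v x)))
        + (g x * (len (v x - mean v) * len (curl v x))
        + g x * (len (v x - mean v) * len (Lam 1 v x)))
        + γ * len (Lam (1 / 2) v x) ^ 2) := by
    refine integral_mono_ae iu ((((i5.const_mul _).add (i1.add i2)).add (i3.add i4)).add
      (i6.const_mul _)) ?_
    filter_upwards [hle] with x hx
    refine hx.trans (le_of_eq ?_)
    ring
  have e : ∫ x in cube, (σ * len (Lam (3 / 2) v x) ^ 2
        + (f₁ x * (len (curl v x) * len (Lam 1 v x))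
        + f₂ x * (len (curl v x) * len (Lam 1 v x)))
        + (g x * (len (v x - mean v) * len (curl v x))
        + g x * (len (v x - mean v) * len (Lam 1 v x)))
        + γ * len (Lam (1 / 2) v x) ^ 2)
      = σ * (∫ x in cube, len (Lam (3 / 2) v x) ^ 2)
        + ((∫ x in cube, f₁ x * (len (curl v x) * len (Lam 1 v x)))
        + (∫ x in cube, f₂ x * (len (curl v x) * len (Lam 1 v x))))
        + ((∫ x in cube, g x * (len (v x - mean v) * len (curl v x)))
        + (∫ x in cube, g x * (len (v x - mean v) * len (Lam 1 v x))))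
        + γ * (∫ x in cube, len (Lam (1 / 2) v x) ^ 2) := by
    have j1 : Integrable (fun x => σ * len (Lam (3 / 2) v x) ^ 2) (volume.restrict cube) :=
      i5.const_mul _
    have j2 : Integrable (fun x => f₁ x * (len (curl v x) * len (Lam 1 v x))
        + f₂ x * (len (curl v x) * len (Lam 1 v x))) (volume.restrict cube) := i1.add i2
    have j3 : Integrable (fun x => g x * (len (v x - mean v) * len (curl v x))
        + g x * (len (v x - mean v) * len (Lam 1 v x))) (volume.restrict cube) := i3.add i4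
    have j4 : Integrable (fun x => γ * len (Lam (1 / 2) v x) ^ 2) (volume.restrict cube) :=
      i6.const_mul _
    have j12 : Integrable (fun x => σ * len (Lam (3 / 2) v x) ^ 2
        + (f₁ x * (len (curl v x) * len (Lam 1 v x))
        + f₂ x * (len (curl v x) * len (Lam 1 v x)))) (volume.restrict cube) := j1.add j2
    have j123 : Integrable (fun x => σ * len (Lam (3 / 2) v x) ^ 2
        + (f₁ x * (len (curl v x) * len (Lam 1 v x))
        + f₂ x * (len (curl v x) * len (Lam 1 v x)))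
        + (g x * (len (v x - mean v) * len (curl v x))
        + g x * (len (v x - mean v) * len (Lam 1 v x)))) (volume.restrict cube) := j12.add j3
    rw [integral_add j123 j4, integral_add j12 j3, integral_add j1 j2, integral_add i1 i2,
      integral_add i3 i4, integral_const_mul, integral_const_mul]
  rw [e] at hmain
  have k1 : σ * (∫ x in cube, len (Lam (3 / 2) v x) ^ 2)
      ≤ σ * (8 * Real.pi ^ 3 * hn 3 (co v)) := by gcongr
  have k6 : γ * (∫ x in cube, len (Lam (1 / 2) v x) ^ 2)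
      ≤ γ * (2 * Real.pi * hn 1 (co v)) := by gcongr
  have k7 : ∫ x in cube, det3 (w x) (curl v x) (Lam 1 v x)
      ≤ 51840 * (Real.sqrt A * Real.sqrt (hn 3 (co v) * hn 2 (co v)
          * (K ^ 2 * hn 1 (co v)))) := by
    refine (le_abs_self _).trans (hplan.trans ?_)
    gcongr
  rw [split]
  linarith

end Pool.Agent.X96.LV
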