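import Pool.Agent.X96.LV.Diff

/-!
The criterion.
-/

open MeasureTheory Set Filter Topology
open scoped ContDiff ENNReal
open H459R3.NS

namespace Pool.Agent.X96.LV

open Pool.Agent.X96.HT

lemma Y_le {X Y Z a : ℝ} (hX : 0 ≤ X) (hY : 0 ≤ Y) (hZ : 0 ≤ Z) (h : Y ^ 2 ≤ X * Z)
    (ha : 0 ≤ a) : Y ^ a ≤ X ^ (a / 2) * Z ^ (a / 2) := by
  rw [← Real.mul_rpow hX hZ]
  calc Y ^ a = (Y ^ 2) ^ (a / 2) := by
        rw [← Real.rpow_natCast, ← Real.rpow_mul hY]
        congr 1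
        push_cast; ring
    _ ≤ _ := Real.rpow_le_rpow (sq_nonneg _) h (by positivity)

/-- the inequality at a fixed time -/
lemma real_ineq {X Y Z θ q r s σ lam A K ε β₁ β₂ γ I : ℝ} (hX : 0 ≤ X) (hY : 0 ≤ Y) (hZ : 0 ≤ Z)
    (h : Y ^ 2 ≤ X * Z) (hθ0 : 0 ≤ θ) (hθ1 : θ < 1) (hq : θ + 2 / q = 1)
    (hr : r ∈ Icc (3 : ℝ) 6) (hs : 3 / r + 2 / s = 2) (hA : 0 ≤ A) (hK : 0 ≤ K)
    (hlam : 0 < lam) (hε : ε = lam / 10000)
    (hβ₁ : 0 ≤ β₁) (hβ₂ : 0 ≤ β₂) (hγ : 0 ≤ γ)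
    (hI : I ≤ σ * (8 * Real.pi ^ 3 * X)
        + (β₁ * (121 * (16 * Real.pi ^ 2) * (Y ^ (1 - θ) * X ^ θ))
        + ε * (121 * (16 * Real.pi ^ 2) * X))
        + 2 * (β₂ * (121 * (4 * Real.pi) * (Z ^ (1 / 2 : ℝ)
          * (Y ^ (1 - 3 / r) * X ^ (3 / r - 1 / 2)))))
        + γ * (2 * Real.pi * Z)
        + 51840 * (Real.sqrt A * Real.sqrt (X * Y * (K ^ 2 * Z)))) :
    -(2 * (σ + lam) * (2 * Real.pi) ^ 2) * X + I / Real.pi
      ≤ -(lam * X) + (2 * γ + (10000 * β₁) ^ q * lam ^ (1 - q)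
        + (10000 * β₂) ^ s * lam ^ (1 - s) + 10 ^ 9 * (A * K ^ 2) / lam * Y) * Z := by
  have hpi := Real.pi_pos
  have hpi3 := Real.pi_gt_three
  have hpi4 := Real.pi_lt_d2
  -- exponents
  have hq0 : q ≠ 0 := by
    rintro rfl
    rw [div_zero] at hq
    linarith
  have hqe : 1 / (1 - (1 + θ) / 2) = q := by
    have h1 : 2 / q = 1 - θ := by linarith
    have h2 : 1 - (1 + θ) / 2 = 1 / q := by
      rw [show (1 : ℝ) / q = (2 / q) / 2 by ring, h1]; ring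
    rw [h2, one_div_one_div]
  have hr0 : 0 < r := by linarith [hr.1]
  have h3r : 3 / r ≤ 1 := by rw [div_le_one hr0]; exact hr.1
  have h3r2 : 1 / 2 ≤ 3 / r := by rw [div_le_div_iff₀ (by norm_num) hr0]; linarith [hr.2]
  have hs0 : s ≠ 0 := by
    rintro rfl
    rw [div_zero] at hs
    linarith
  set τ : ℝ := 3 / (2 * r) with hτ
  have hτ2 : 3 / r = 2 * τ := by rw [hτ]; field_simp
  have hse : 1 / (1 - τ) = s := by
    have h1 : 1 - τ = 1 / s := by
      rw [show (1 : ℝ) / s = (2 / s) / 2 by ring]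
      have : 2 / s = 2 - 2 * τ := by linarith
      rw [this]; ring
    rw [h1, one_div_one_div]
  have hτ0 : 0 ≤ τ := by linarith
  have hτ1 : τ < 1 := by linarith
  -- first term
  have t1 : β₁ * (121 * (16 * Real.pi ^ 2) * (Y ^ (1 - θ) * X ^ θ)) / Real.pi
      ≤ lam * X + (10000 * β₁) ^ q * lam ^ (1 - q) * Z := by
    have a1 : Y ^ (1 - θ) * X ^ θ ≤ Z ^ (1 - (1 + θ) / 2) * X ^ ((1 + θ) / 2) := by
      have b1 := Y_le hX hY hZ h (by linarith : 0 ≤ 1 - θ)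
      calc Y ^ (1 - θ) * X ^ θ ≤ (X ^ ((1 - θ) / 2) * Z ^ ((1 - θ) / 2)) * X ^ θ := by gcongr
        _ = Z ^ ((1 - θ) / 2) * (X ^ ((1 - θ) / 2) * X ^ θ) := by ring
        _ = _ := by
            rw [← Real.rpow_add_of_nonneg hX (by linarith) hθ0]
            congr 2 <;> ring
    have a2 := young (s := (1 + θ) / 2) (K := 10000 * β₁) (by linarith) (by linarith)
      (by positivity) hX hZ hlam
    rw [hqe] at a2
    refine le_trans ?_ a2
    calc β₁ * (121 * (16 * Real.pi ^ 2) * (Y ^ (1 - θ) * X ^ θ)) / Real.pi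
        = (1936 * Real.pi) * β₁ * (Y ^ (1 - θ) * X ^ θ) := by field_simp; ring
      _ ≤ 10000 * β₁ * (Z ^ (1 - (1 + θ) / 2) * X ^ ((1 + θ) / 2)) := by
          gcongr
          nlinarith
  have t2 : ε * (121 * (16 * Real.pi ^ 2) * X) / Real.pi ≤ lam * X := by
    calc ε * (121 * (16 * Real.pi ^ 2) * X) / Real.pi
        = (1936 * Real.pi / 10000) * (lam * X) := by rw [hε]; field_simp; ring
      _ ≤ 1 * (lam * X) := by
          gcongr
          nlinarith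
      _ = _ := one_mul _
  have t3 : 2 * (β₂ * (121 * (4 * Real.pi) * (Z ^ (1 / 2 : ℝ)
          * (Y ^ (1 - 3 / r) * X ^ (3 / r - 1 / 2))))) / Real.pi
      ≤ lam * X + (10000 * β₂) ^ s * lam ^ (1 - s) * Z := by
    have a1 : Z ^ (1 / 2 : ℝ) * (Y ^ (1 - 3 / r) * X ^ (3 / r - 1 / 2))
        ≤ Z ^ (1 - τ) * X ^ τ := by
      have b1 := Y_le hX hY hZ h (by linarith : 0 ≤ 1 - 3 / r)
      calc Z ^ (1 / 2 : ℝ) * (Y ^ (1 - 3 / r) * X ^ (3 / r - 1 / 2))
          ≤ Z ^ (1 / 2 : ℝ) * ((X ^ ((1 - 3 / r) / 2) * Z ^ ((1 - 3 / r) / 2))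
            * X ^ (3 / r - 1 / 2)) := by gcongr
        _ = (Z ^ (1 / 2 : ℝ) * Z ^ ((1 - 3 / r) / 2))
            * (X ^ ((1 - 3 / r) / 2) * X ^ (3 / r - 1 / 2)) := by ring
        _ = _ := by
            rw [← Real.rpow_add_of_nonneg hX (by linarith) (by linarith),
              ← Real.rpow_add_of_nonneg hZ (by norm_num) (by linarith), hτ2]
            congr 2 <;> ring
    have a2 := young (s := τ) (K := 10000 * β₂) hτ0 hτ1 (by positivity) hX hZ hlam
    rw [hse] at a2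
    refine le_trans ?_ a2
    calc 2 * (β₂ * (121 * (4 * Real.pi) * (Z ^ (1 / 2 : ℝ)
          * (Y ^ (1 - 3 / r) * X ^ (3 / r - 1 / 2))))) / Real.pi
        = 968 * β₂ * (Z ^ (1 / 2 : ℝ) * (Y ^ (1 - 3 / r) * X ^ (3 / r - 1 / 2))) := by
          field_simp; ring
      _ ≤ 10000 * β₂ * (Z ^ (1 - τ) * X ^ τ) := by
          gcongr
          norm_num
  have t4 : γ * (2 * Real.pi * Z) / Real.pi = 2 * γ * Z := by field_simp
  have t5 : 51840 * (Real.sqrt A * Real.sqrt (X * Y * (K ^ 2 * Z))) / Real.pi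
      ≤ lam * X + 10 ^ 9 * (A * K ^ 2) / lam * Y * Z := by
    have a1 : Real.sqrt A * Real.sqrt (X * Y * (K ^ 2 * Z))
        = Real.sqrt (X * (A * K ^ 2 * Y * Z)) := by
      rw [← Real.sqrt_mul hA]
      congr 1
      ring
    have a2 : 51840 * Real.sqrt (X * (A * K ^ 2 * Y * Z)) / Real.pi
        ≤ 17280 * Real.sqrt (X * (A * K ^ 2 * Y * Z)) := by
      rw [div_le_iff₀ hpi]
      have : 0 ≤ Real.sqrt (X * (A * K ^ 2 * Y * Z)) := Real.sqrt_nonneg _
      nlinarith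
    rw [a1]
    refine a2.trans ?_
    set W := A * K ^ 2 * Y * Z with hW
    have hW0 : 0 ≤ W := by positivity
    have a3 : Real.sqrt (X * W) ≤ (lam / 17280 * X + 17280 / lam * W) := by
      refine Real.sqrt_le_iff.2 ⟨by positivity, ?_⟩
      have : (lam / 17280 * X) * (17280 / lam * W) = X * W := by field_simp
      nlinarith [sq_nonneg (lam / 17280 * X - 17280 / lam * W), mul_nonneg hX hW0,
        mul_nonneg (by positivity : 0 ≤ lam / 17280 * X) (by positivity : 0 ≤ 17280 / lam * W)]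
    calc 17280 * Real.sqrt (X * W) ≤ 17280 * (lam / 17280 * X + 17280 / lam * W) := by gcongr
      _ = lam * X + 17280 ^ 2 / lam * W := by ring
      _ ≤ lam * X + 10 ^ 9 / lam * W := by
          gcongr
          norm_num
      _ = _ := by rw [hW]; ring
  have hIp : I / Real.pi ≤ 8 * Real.pi ^ 2 * σ * X
      + (β₁ * (121 * (16 * Real.pi ^ 2) * (Y ^ (1 - θ) * X ^ θ)) / Real.pi
        + ε * (121 * (16 * Real.pi ^ 2) * X) / Real.pi)
      + 2 * (β₂ * (121 * (4 * Real.pi) * (Z ^ (1 / 2 : ℝ)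
          * (Y ^ (1 - 3 / r) * X ^ (3 / r - 1 / 2))))) / Real.pi
      + γ * (2 * Real.pi * Z) / Real.pi
      + 51840 * (Real.sqrt A * Real.sqrt (X * Y * (K ^ 2 * Z))) / Real.pi := by
    refine (div_le_div_of_nonneg_right hI hpi.le).trans (le_of_eq ?_)
    field_simp
  have hl : 5 * (lam * X) ≤ 8 * Real.pi ^ 2 * (lam * X) := by
    have : 0 ≤ lam * X := by positivity
    gcongr
    nlinarith
  calc -(2 * (σ + lam) * (2 * Real.pi) ^ 2) * X + I / Real.pi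
      = I / Real.pi - 8 * Real.pi ^ 2 * σ * X - 8 * Real.pi ^ 2 * (lam * X) := by ring
    _ ≤ _ := by
      rw [t4] at hIp
      linarith

lemma int_le_total {φ : ℝ → ℝ} {T t : ℝ} (ht : t ∈ Ico 0 T) (hφ : ∀ s ∈ Ioo 0 T, 0 ≤ φ s)
    (hi : IntegrableOn φ (Ioo 0 T)) :
    IntegrableOn φ (Icc 0 t) ∧ ∫ s in (0 : ℝ)..t, φ s ≤ ∫ s in Ioo 0 T, φ s := by
  constructor
  · rw [integrableOn_Icc_iff_integrableOn_Ioo]
    exact hi.mono_set fun s hs => ⟨hs.1, hs.2.trans ht.2⟩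
  · rw [intervalIntegral.integral_of_le ht.1, integral_Ioc_eq_integral_Ioo]
    refine setIntegral_mono_set hi ?_ ?_
    · exact ae_restrict_of_forall_mem measurableSet_Ioo hφ
    · exact (show Ioo 0 t ⊆ Ioo 0 T from fun s hs => ⟨hs.1, hs.2.trans ht.2⟩).eventuallyLE

theorem lamb {p : ℝ≥0∞} (hp : 3 < p) {q : ℝ} (hq : 3 / p.toReal + 2 / q = 1) {r s : ℝ}
    (hr : r ∈ Icc (3 : ℝ) 6) (hs : 3 / r + 2 / s = 2) {ν T κ A K : ℝ} {u : ℝ → V → V}
    {P : ℝ → V → ℝ} {β₁ β₂ γ : ℝ → ℝ} (hν : 0 < ν) (hsol : IsSol ν T u P)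
    (hκ : κ ∈ Ico (0 : ℝ) 1) (hA : 0 ≤ A) (hK : 0 ≤ K)
    (hnn : ∀ t ∈ Ioo 0 T, 0 ≤ β₁ t ∧ 0 ≤ β₂ t ∧ 0 ≤ γ t)
    (h1 : IntegrableOn (fun t => β₁ t ^ q) (Ioo 0 T))
    (h2 : IntegrableOn (fun t => β₂ t ^ s) (Ioo 0 T)) (h3 : IntegrableOn γ (Ioo 0 T))
    (hc : ∀ t ∈ Ioo 0 T,
      Cond p r (κ * ν) A K ((1 - κ) * ν / 10000) (β₁ t) (β₂ t) (γ t) (u t)) :
    (∀ t ∈ Ico 0 T, hn 1 (co (u t)) ≤ hn 1 (co (u 0)) * Real.exp (2 * (∫ t in Ioo 0 T, γ t)
      + 10000 ^ q * ((1 - κ) * ν) ^ (1 - q) * (∫ t in Ioo 0 T, β₁ t ^ q)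
      + 10000 ^ s * ((1 - κ) * ν) ^ (1 - s) * (∫ t in Ioo 0 T, β₂ t ^ s)
      + 2 * 10 ^ 7 * (A * K ^ 2 * energy (u 0)) / ((1 - κ) * ν ^ 2))) ∧
    ∃ M, ∀ t ∈ Ico 0 T, ∀ x i, |u t x i| ≤ M := by
  have hpi := Real.pi_pos
  have hpi3 := Real.pi_gt_three
  have hκ1 : 0 < 1 - κ := by linarith [hκ.2]
  set lam : ℝ := (1 - κ) * ν with hlam
  have hlam0 : 0 < lam := by positivity
  have hE := energy_nonneg (u 0)
  set θ : ℝ := 3 / p.toReal with hθ
  have hθ0 : 0 ≤ θ := by positivity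
  have hθ1 : θ < 1 := by
    rcases eq_or_ne p ⊤ with htop | htop
    · rw [hθ, htop, ENNReal.toReal_top, div_zero]; exact one_pos
    · have h3 : 3 < p.toReal := by
        have := (ENNReal.toReal_lt_toReal (by norm_num) htop).2 hp
        simpa using this
      rw [hθ, div_lt_one (by linarith)]
      exact h3
  have h1' : IntegrableOn (fun t => (10000 * β₁ t) ^ q) (Ioo 0 T) := by
    have h1'' : IntegrableOn (fun t => 10000 ^ q * β₁ t ^ q) (Ioo 0 T) := h1.const_mul (10000 ^ q)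
    refine h1''.congr_fun (fun t ht => ?_) measurableSet_Ioo
    simp only
    rw [Real.mul_rpow (by norm_num) (hnn t ht).1]
  have h2' : IntegrableOn (fun t => (10000 * β₂ t) ^ s) (Ioo 0 T) := by
    have h2'' : IntegrableOn (fun t => 10000 ^ s * β₂ t ^ s) (Ioo 0 T) := h2.const_mul (10000 ^ s)
    refine h2''.congr_fun (fun t ht => ?_) measurableSet_Ioo
    simp only
    rw [Real.mul_rpow (by norm_num) (hnn t ht).2.1]
  have e1 : ∫ t in Ioo 0 T, (10000 * β₁ t) ^ q = 10000 ^ q * ∫ t in Ioo 0 T, β₁ t ^ q := by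
    rw [← integral_const_mul]
    refine setIntegral_congr_fun measurableSet_Ioo fun t ht => ?_
    rw [Real.mul_rpow (by norm_num) (hnn t ht).1]
  have e2 : ∫ t in Ioo 0 T, (10000 * β₂ t) ^ s = 10000 ^ s * ∫ t in Ioo 0 T, β₂ t ^ s := by
    rw [← integral_const_mul]
    refine setIntegral_congr_fun measurableSet_Ioo fun t ht => ?_
    rw [Real.mul_rpow (by norm_num) (hnn t ht).2.1]
  set kk : ℝ → ℝ := fun t => 2 * γ t + (10000 * β₁ t) ^ q * lam ^ (1 - q)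
        + (10000 * β₂ t) ^ s * lam ^ (1 - s) + 10 ^ 9 * (A * K ^ 2) / lam * hn 2 (co (u t)) with hkk
  have hk0 : ∀ t ∈ Ioo 0 T, 0 ≤ kk t := by
    intro t ht
    obtain ⟨a1, a2, a3⟩ := hnn t ht
    have := hn_nonneg 2 (co (u t))
    simp only [hkk]
    positivity
  set B : ℝ := 2 * (∫ t in Ioo 0 T, γ t)
      + 10000 ^ q * lam ^ (1 - q) * (∫ t in Ioo 0 T, β₁ t ^ q)
      + 10000 ^ s * lam ^ (1 - s) * (∫ t in Ioo 0 T, β₂ t ^ s)
      + 2 * 10 ^ 7 * (A * K ^ 2 * energy (u 0)) / ((1 - κ) * ν ^ 2) with hB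
  have hki : ∀ t ∈ Ico 0 T, IntegrableOn kk (Icc 0 t) ∧ ∫ s in (0 : ℝ)..t, kk s ≤ B := by
    intro t ht
    have hc2 : ContinuousOn (fun s => hn 2 (co (u s))) (Icc 0 t) :=
      (cont_hn hsol (by norm_num)).mono fun s hs => ⟨hs.1, hs.2.trans_lt ht.2⟩
    have hi4 : IntegrableOn (fun s => hn 2 (co (u s))) (Icc 0 t) := hc2.integrableOn_Icc
    obtain ⟨j1, l1⟩ := int_le_total ht (fun s hs => (hnn s hs).2.2) h3
    obtain ⟨j2, l2⟩ := int_le_total ht (fun s hs => Real.rpow_nonneg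
      (mul_nonneg (by norm_num) (hnn s hs).1) q) h1'
    obtain ⟨j3, l3⟩ := int_le_total ht (fun r hr => Real.rpow_nonneg
      (mul_nonneg (by norm_num) (hnn r hr).2.1) s) h2'
    have toI : ∀ {φ : ℝ → ℝ}, IntegrableOn φ (Icc 0 t) → IntervalIntegrable φ volume 0 t :=
      fun h => (intervalIntegrable_iff_integrableOn_Icc_of_le ht.1).2 h
    refine ⟨(((j1.const_mul _).add (j2.mul_const _)).add (j3.mul_const _)).add
      (hi4.const_mul _), ?_⟩
    simp only [hkk]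
    rw [intervalIntegral.integral_add ((((toI j1).const_mul 2).add ((toI j2).mul_const _)).add
      ((toI j3).mul_const _)) ((toI hi4).const_mul _),
      intervalIntegral.integral_add (((toI j1).const_mul 2).add ((toI j2).mul_const _))
      ((toI j3).mul_const _),
      intervalIntegral.integral_add ((toI j1).const_mul 2) ((toI j2).mul_const _),
      intervalIntegral.integral_const_mul, intervalIntegral.integral_mul_const,
      intervalIntegral.integral_mul_const, intervalIntegral.integral_const_mul]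
    have g1 : ∫ s in (0 : ℝ)..t, hn 2 (co (u s)) ≤ energy (u 0) / (8 * Real.pi ^ 2 * ν) := by
      have h1 := hsol.int_enstrophy hν ht
      have e : ∫ s in (0 : ℝ)..t, enstrophy (u s)
          = (2 * Real.pi) ^ 2 * ∫ s in (0 : ℝ)..t, hn 2 (co (u s)) := by
        rw [← intervalIntegral.integral_const_mul]
        refine intervalIntegral.integral_congr fun s hs => ?_
        rw [uIcc_of_le ht.1] at hs
        exact enstrophy_eq (hsol.sp ⟨hs.1, hs.2.trans_lt ht.2⟩)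
      rw [e] at h1
      rw [le_div_iff₀ (by positivity)]
      rw [le_div_iff₀ (by positivity)] at h1
      linarith
    have g2 : 10 ^ 9 * (A * K ^ 2) / lam * ∫ s in (0 : ℝ)..t, hn 2 (co (u s))
        ≤ 2 * 10 ^ 7 * (A * K ^ 2 * energy (u 0)) / ((1 - κ) * ν ^ 2) := by
      calc 10 ^ 9 * (A * K ^ 2) / lam * ∫ s in (0 : ℝ)..t, hn 2 (co (u s))
          ≤ 10 ^ 9 * (A * K ^ 2) / lam * (energy (u 0) / (8 * Real.pi ^ 2 * ν)) := by gcongr
        _ = (10 ^ 9 / (8 * Real.pi ^ 2))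
            * ((A * K ^ 2 * energy (u 0)) / ((1 - κ) * ν ^ 2)) := by
          rw [hlam]
          field_simp
        _ ≤ 2 * 10 ^ 7 * ((A * K ^ 2 * energy (u 0)) / ((1 - κ) * ν ^ 2)) := by
          gcongr
          rw [div_le_iff₀ (by positivity)]
          nlinarith
        _ = _ := by ring
    have g3 : (∫ s in (0 : ℝ)..t, (10000 * β₁ s) ^ q) * lam ^ (1 - q)
        ≤ 10000 ^ q * lam ^ (1 - q) * (∫ t in Ioo 0 T, β₁ t ^ q) := by
      calc _ ≤ (∫ s in Ioo 0 T, (10000 * β₁ s) ^ q) * lam ^ (1 - q) := by gcongr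
        _ = _ := by rw [e1]; ring
    have g4 : (∫ r in (0 : ℝ)..t, (10000 * β₂ r) ^ s) * lam ^ (1 - s)
        ≤ 10000 ^ s * lam ^ (1 - s) * (∫ t in Ioo 0 T, β₂ t ^ s) := by
      calc _ ≤ (∫ r in Ioo 0 T, (10000 * β₂ r) ^ s) * lam ^ (1 - s) := by gcongr
        _ = _ := by rw [e2]; ring
    rw [hB]
    linarith
  have hd : ∀ t ∈ Ioo 0 T, ∑' k, zt u t k
      ≤ -(lam * hn 3 (co (u t))) + kk t * hn 1 (co (u t)) + 0 := by
    intro t ht
    have hI : t ∈ Ico 0 T := ⟨ht.1.le, ht.2⟩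
    have hsp := hsol.sp hI
    have hU := rapV_co hsp
    have hdiv := hsol.divfree t hI
    obtain ⟨a1, a2, a3⟩ := hnn t ht
    have hb := prod_bound hsp hdiv hp.le hr (by have := hκ.1; positivity) hK (by positivity) a1 a2
      a3 (hc t ht)
    have hri := real_ineq (hn_nonneg 3 _) (hn_nonneg 2 _) (hn_nonneg 1 _) (hn_interp hU) hθ0 hθ1
      hq hr hs hA hK hlam0 rfl a1 a2 a3 hb
    rw [tsum_zt hsol ht, add_zero]
    have hpd := prod_det hsp hdiv
    have e3 : 4 * Real.pi * (T3s (ft (co (u t)))).re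
        = -((∫ x in cube, det3 (u t x) (curl (u t) x) (Lam 1 (u t) x)) / Real.pi) := by
      rw [eq_neg_iff_add_eq_zero]
      have : (∫ x in cube, det3 (u t x) (curl (u t) x) (Lam 1 (u t) x))
          = -(4 * Real.pi ^ 2 * (T3s (ft (co (u t)))).re) := by linarith
      rw [this]
      field_simp
      ring
    rw [e3]
    have e4 : κ * ν + lam = ν := by rw [hlam]; ring
    rw [e4] at hri
    simp only [hkk]
    linarith
  have hG := gron_general hsol hlam0 le_rfl hk0 hki hd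
  refine ⟨fun t ht => ?_, ?_⟩
  · have := hG.1 t ht
    rw [zero_mul, add_zero] at this
    exact this
  · obtain ⟨C, hC⟩ := hG.2
    exact bounded_of_enstrophy_sq hsol hν hC

end Pool.Agent.X96.LV
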