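import Pool.Agent.X96.HT.Crit2

/-!
A general form of the Gronwall argument for the norm of `H^{1/2}`.
-/

open MeasureTheory Set Filter Topology
open scoped ContDiff
open H459R3.NS

namespace Pool.Agent.X96.LV

open Pool.Agent.X96.HT

variable {ν T : ℝ} {u : ℝ → V → V} {P : ℝ → V → ℝ}

/-- Gronwall for `H^{1/2}`. -/
theorem gron_general (h : IsSol ν T u P) {δ D B : ℝ} (hδ : 0 < δ) (hD0 : 0 ≤ D) {κ : ℝ → ℝ}
    (hκ0 : ∀ s ∈ Ioo 0 T, 0 ≤ κ s)
    (hκi : ∀ t ∈ Ico 0 T, IntegrableOn κ (Icc 0 t) ∧ ∫ s in (0 : ℝ)..t, κ s ≤ B)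
    (hdle : ∀ s ∈ Ioo 0 T, ∑' k, zt u s k
      ≤ -(δ * hn 3 (co (u s))) + κ s * hn 1 (co (u s)) + D) :
    (∀ t ∈ Ico 0 T, hn 1 (co (u t)) ≤ (hn 1 (co (u 0)) + D * t) * Real.exp B) ∧
    ∃ C, ∀ t ∈ Ico 0 T, ∫ s in (0 : ℝ)..t, enstrophy (u s) ^ 2 ≤ C := by
  set y : ℝ → ℝ := fun s => hn 1 (co (u s)) with hy
  have hy0 : ∀ s, 0 ≤ y s := fun s => hn_nonneg _ _
  have hyc0 : ContinuousOn y (Ico 0 T) := cont_hn h le_rfl
  have hd : ∀ s ∈ Ioo 0 T, HasDerivAt y (∑' k, zt u s k) s := fun s hs => hasDerivAt_Z h hs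
  have hyb : ∀ t ∈ Ico 0 T, y t ≤ (y 0 + D * t) * Real.exp B := by
    intro t ht
    have hyc : ContinuousOn y (Icc 0 t) := hyc0.mono fun s hs => ⟨hs.1, hs.2.trans_lt ht.2⟩
    have hlog : ∀ ε : ℝ, 0 < ε → y t + ε ≤ (y 0 + D * t + ε) * Real.exp B := by
      intro ε hε
      have hpos : ∀ s ∈ Icc 0 t, 0 < y s + (D * (t - s) + ε) := fun s hs => by
        have := hy0 s
        have h2 : 0 ≤ D * (t - s) := mul_nonneg hD0 (by linarith [hs.2])
        linarith
      have hcl : ContinuousOn (fun s => Real.log (y s + (D * (t - s) + ε))) (Icc 0 t) :=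
        (hyc.add (by fun_prop)).log fun s hs => (hpos s hs).ne'
      have hd' : ∀ s ∈ Ioo 0 t, HasDerivWithinAt (fun s => Real.log (y s + (D * (t - s) + ε)))
          ((∑' k, zt u s k + D * (-1)) / (y s + (D * (t - s) + ε))) (Ioi s) s := by
        intro s hs
        have a1 := hd s ⟨hs.1, hs.2.trans ht.2⟩
        have a2 : HasDerivAt (fun s => D * (t - s) + ε) (D * (-1)) s :=
          (((hasDerivAt_id s).const_sub t).const_mul D).add_const ε
        exact ((a1.add a2).log (hpos s ⟨hs.1.le, hs.2.le⟩).ne').hasDerivWithinAt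
      have hle : ∀ s ∈ Ioo 0 t, (∑' k, zt u s k + D * (-1)) / (y s + (D * (t - s) + ε)) ≤ κ s := by
        intro s hs
        have hsI : s ∈ Icc 0 t := ⟨hs.1.le, hs.2.le⟩
        have hsT : s ∈ Ioo 0 T := ⟨hs.1, hs.2.trans ht.2⟩
        rw [div_le_iff₀ (hpos s hsI)]
        have h0 := hdle s hsT
        have h1 : 0 ≤ δ * hn 3 (co (u s)) := by
          have := hn_nonneg 3 (co (u s)); positivity
        have h2 : 0 ≤ κ s * (D * (t - s) + ε) := by
          have h3 : 0 ≤ D * (t - s) := mul_nonneg hD0 (by linarith [hs.2])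
          have := hκ0 s hsT
          positivity
        simp only [hy] at *
        linarith
      have h1 := intervalIntegral.sub_le_integral_of_hasDeriv_right_of_le ht.1 hcl hd'
        (hκi t ht).1 hle
      have e0 : y t + (D * (t - t) + ε) = y t + ε := by ring
      have e1 : y 0 + (D * (t - 0) + ε) = y 0 + D * t + ε := by ring
      rw [e0, e1] at h1
      have hpt : 0 < y t + ε := by linarith [hy0 t]
      have hp0 : 0 < y 0 + D * t + ε := by
        have := mul_nonneg hD0 ht.1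
        linarith [hy0 0]
      have h2 : Real.log (y t + ε) ≤ Real.log (y 0 + D * t + ε) + B := by
        linarith [(hκi t ht).2]
      calc y t + ε = Real.exp (Real.log (y t + ε)) := (Real.exp_log hpt).symm
        _ ≤ Real.exp (Real.log (y 0 + D * t + ε) + B) := Real.exp_le_exp.2 h2
        _ = (y 0 + D * t + ε) * Real.exp B := by rw [Real.exp_add, Real.exp_log hp0]
    have hlim1 : Tendsto (fun ε : ℝ => y t + ε) (𝓝[>] 0) (𝓝 (y t + 0)) :=
      (tendsto_const_nhds.add tendsto_id).mono_left nhdsWithin_le_nhds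
    have hlim2 : Tendsto (fun ε : ℝ => (y 0 + D * t + ε) * Real.exp B) (𝓝[>] 0)
        (𝓝 ((y 0 + D * t + 0) * Real.exp B)) :=
      ((tendsto_const_nhds.add tendsto_id).mul_const _).mono_left nhdsWithin_le_nhds
    have := le_of_tendsto_of_tendsto hlim1 hlim2 (by
      filter_upwards [self_mem_nhdsWithin] with ε hε
      exact hlog ε hε)
    simpa using this
  refine ⟨hyb, ?_⟩
  set Y : ℝ := (y 0 + D * T) * Real.exp B with hY
  rcases le_or_gt T 0 with hT | hT
  · exact ⟨0, fun t ht => absurd (ht.1.trans_lt ht.2) (not_lt.2 hT)⟩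
  have hY0 : 0 ≤ Y := mul_nonneg (add_nonneg (hy0 0) (mul_nonneg hD0 hT.le)) (Real.exp_pos _).le
  have hyY : ∀ t ∈ Ico 0 T, y t ≤ Y := by
    intro t ht
    refine (hyb t ht).trans ?_
    rw [hY]
    have := ht.2.le
    gcongr
  refine ⟨(2 * Real.pi) ^ 4 * (Y * ((y 0 + Y * B + D * T) / δ)), fun t ht => ?_⟩
  have hyc : ContinuousOn y (Icc 0 t) := hyc0.mono fun s hs => ⟨hs.1, hs.2.trans_lt ht.2⟩
  have hXc : ContinuousOn (fun s => hn 3 (co (u s))) (Icc 0 t) :=
    (cont_hn h (by norm_num)).mono fun s hs => ⟨hs.1, hs.2.trans_lt ht.2⟩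
  have hX1 : IntegrableOn (fun s => hn 3 (co (u s))) (Icc 0 t) := hXc.integrableOn_Icc
  have i2 : IntervalIntegrable (fun s => hn 3 (co (u s))) volume 0 t :=
    (intervalIntegrable_iff_integrableOn_Icc_of_le ht.1).2 hX1
  have i1 : IntervalIntegrable κ volume 0 t :=
    (intervalIntegrable_iff_integrableOn_Icc_of_le ht.1).2 (hκi t ht).1
  have hcD : IntegrableOn (fun _ : ℝ => D) (Icc 0 t) :=
    (continuousOn_const).integrableOn_Icc
  have hg1 : IntegrableOn (fun s => -(δ * hn 3 (co (u s))) + Y * κ s + D)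
      (Icc 0 t) :=
    (((hX1.const_mul δ).neg).add ((hκi t ht).1.const_mul _)).add hcD
  have h1 := intervalIntegral.sub_le_integral_of_hasDeriv_right_of_le ht.1 hyc
    (fun s hs => (hd s ⟨hs.1, hs.2.trans ht.2⟩).hasDerivWithinAt) hg1
    (fun s hs => by
      have hs' : s ∈ Ioo 0 T := ⟨hs.1, hs.2.trans ht.2⟩
      have a1 := hdle s hs'
      have a2 : κ s * y s ≤ Y * κ s := by
        rw [mul_comm]
        exact mul_le_mul_of_nonneg_right (hyY s ⟨hs'.1.le, hs'.2⟩) (hκ0 s hs')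
      simp only [hy] at a2
      linarith)
  have j1 : IntervalIntegrable (fun s => -(δ * hn 3 (co (u s)))) volume 0 t :=
    (i2.const_mul _).neg
  have j2 : IntervalIntegrable (fun s => Y * κ s) volume 0 t := i1.const_mul _
  rw [intervalIntegral.integral_add (j1.add j2) intervalIntegrable_const,
    intervalIntegral.integral_add j1 j2, intervalIntegral.integral_neg,
    intervalIntegral.integral_const_mul, intervalIntegral.integral_const_mul,
    intervalIntegral.integral_const, smul_eq_mul, sub_zero] at h1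
  have a1 := mul_le_mul_of_nonneg_left (hκi t ht).2 hY0
  have a4 := hy0 t
  have a5 : t * D ≤ D * T := by
    rw [mul_comm]
    exact mul_le_mul_of_nonneg_left ht.2.le hD0
  have h2 : ∫ s in (0 : ℝ)..t, hn 3 (co (u s)) ≤ (y 0 + Y * B + D * T) / δ := by
    rw [le_div_iff₀ (by positivity)]
    linarith
  have h3 : ∫ s in (0 : ℝ)..t, enstrophy (u s) ^ 2
      ≤ ∫ s in (0 : ℝ)..t, (2 * Real.pi) ^ 4 * (Y * hn 3 (co (u s))) := by
    have hEc : ContinuousOn (fun s => enstrophy (u s) ^ 2) (Icc 0 t) :=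
      (h.enstrophy_continuousOn.mono fun s hs => ⟨hs.1, hs.2.trans_lt ht.2⟩).pow 2
    refine intervalIntegral.integral_mono_on ht.1
      ((intervalIntegrable_iff_integrableOn_Icc_of_le ht.1).2 hEc.integrableOn_Icc)
      ((i2.const_mul _).const_mul _) fun s hs => ?_
    have hI : s ∈ Ico 0 T := ⟨hs.1, hs.2.trans_lt ht.2⟩
    rw [enstrophy_eq (h.sp hI)]
    have h4 := hn_interp (rapV_co (h.sp hI))
    have h5 := hyY s hI
    have h6 := hn_nonneg 3 (co (u s))
    calc ((2 * Real.pi) ^ 2 * hn 2 (co (u s))) ^ 2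
        = (2 * Real.pi) ^ 4 * hn 2 (co (u s)) ^ 2 := by ring
      _ ≤ (2 * Real.pi) ^ 4 * (hn 3 (co (u s)) * hn 1 (co (u s))) := by gcongr
      _ ≤ (2 * Real.pi) ^ 4 * (hn 3 (co (u s)) * Y) := by gcongr
      _ = _ := by ring
  refine h3.trans ?_
  rw [intervalIntegral.integral_const_mul, intervalIntegral.integral_const_mul]
  gcongr

end Pool.Agent.X96.LV
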