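import Pool.Agent.X96.LV.Bnd

/-!
Hölder's inequality with three factors.
-/

open MeasureTheory Set Filter Topology
open scoped ContDiff ENNReal
open H459R3.NS

namespace Pool.Agent.X96.LV

open Pool.Agent.X96.HT

variable {μ : Measure V} {G a b : V → ℝ≥0∞}

lemma rpow_split {x : ℝ≥0∞} {e2 e3 : ℝ} (h2 : 0 ≤ e2) (h3 : 0 ≤ e3) (h : 2 * e2 + 3 * e3 = 1) :
    (x ^ (2 : ℝ)) ^ e2 * (x ^ (3 : ℝ)) ^ e3 = x := by
  rw [← ENNReal.rpow_mul, ← ENNReal.rpow_mul, ← ENNReal.rpow_add_of_nonneg _ _ (by positivity)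
    (by positivity), h, ENNReal.rpow_one]

lemma hold5 (hG : AEMeasurable G μ) (ha : AEMeasurable a μ) (hb : AEMeasurable b μ)
    {P e2 e3 e4 e5 : ℝ} (hP : 0 < P) (h2 : 0 ≤ e2) (h3 : 0 ≤ e3) (h4 : 0 ≤ e4) (h5 : 0 ≤ e5)
    (ha' : 2 * e2 + 3 * e3 = 1) (hb' : 2 * e4 + 3 * e5 = 1)
    (hs : 1 / P + e2 + e3 + e4 + e5 = 1) :
    ∫⁻ x, G x * (a x * b x) ∂μ ≤ (∫⁻ x, G x ^ P ∂μ) ^ (1 / P)
      * ((∫⁻ x, a x ^ (2 : ℝ) ∂μ) ^ e2 * (∫⁻ x, a x ^ (3 : ℝ) ∂μ) ^ e3)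
      * ((∫⁻ x, b x ^ (2 : ℝ) ∂μ) ^ e4 * (∫⁻ x, b x ^ (3 : ℝ) ∂μ) ^ e5) := by
  have h := ENNReal.lintegral_prod_norm_pow_le (μ := μ) (Finset.univ : Finset (Fin 5))
    (f := ![fun x => G x ^ P, fun x => a x ^ (2 : ℝ), fun x => a x ^ (3 : ℝ),
      fun x => b x ^ (2 : ℝ), fun x => b x ^ (3 : ℝ)]) (p := ![1 / P, e2, e3, e4, e5])
    (by
      intro i _
      fin_cases i
      · exact hG.pow_const _
      · exact ha.pow_const _
      · exact ha.pow_const _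
      · exact hb.pow_const _
      · exact hb.pow_const _)
    (by simpa [Fin.sum_univ_five] using hs)
    (by
      intro i _
      fin_cases i
      · exact (one_div_pos.2 hP).le
      · exact h2
      · exact h3
      · exact h4
      · exact h5)
  simp only [Fin.prod_univ_five, Matrix.cons_val_zero, Matrix.cons_val_one, Matrix.cons_val] at h
  refine (le_of_eq ?_).trans (h.trans (le_of_eq (by ring)))
  refine lintegral_congr fun x => ?_
  have e1 : (G x ^ P) ^ (1 / P) = G x := by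
    rw [← ENNReal.rpow_mul, mul_one_div_cancel hP.ne', ENNReal.rpow_one]
  calc G x * (a x * b x) = (G x ^ P) ^ (1 / P) * (((a x ^ (2 : ℝ)) ^ e2 * (a x ^ (3 : ℝ)) ^ e3)
        * ((b x ^ (2 : ℝ)) ^ e4 * (b x ^ (3 : ℝ)) ^ e5)) := by
        rw [e1, rpow_split h2 h3 ha', rpow_split h4 h5 hb']
    _ = _ := by ring

lemma plug {A2 A3 : ℝ≥0∞} {c X Y e2 e3 : ℝ} (hc : 0 ≤ c) (hX : 0 ≤ X) (hY : 0 ≤ Y)
    (h2 : 0 ≤ e2) (h3 : 0 ≤ e3) (he : 2 * e2 + 3 * e3 = 1)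
    (hA2 : A2 ≤ ENNReal.ofReal (c * Y))
    (hA3 : A3 ≤ ENNReal.ofReal (1040 * (c * X) ^ (3 / 2 : ℝ))) :
    A2 ^ e2 * A3 ^ e3 ≤ ENNReal.ofReal (11 * Real.sqrt c * (Y ^ e2 * X ^ (3 * e3 / 2))) := by
  have hcX : 0 ≤ c * X := by positivity
  have h1 : A2 ^ e2 * A3 ^ e3 ≤ ENNReal.ofReal ((c * Y) ^ e2
      * (1040 * (c * X) ^ (3 / 2 : ℝ)) ^ e3) := by
    rw [ENNReal.ofReal_mul (by positivity), ← ENNReal.ofReal_rpow_of_nonneg (by positivity) h2,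
      ← ENNReal.ofReal_rpow_of_nonneg (by positivity) h3]
    gcongr
  refine h1.trans (ENNReal.ofReal_le_ofReal ?_)
  rw [Real.mul_rpow hc hY, Real.mul_rpow (by norm_num) (by positivity), ← Real.rpow_mul hcX,
    Real.mul_rpow hc hX]
  have e : (3 / 2 * e3 : ℝ) = 3 * e3 / 2 := by ring
  rw [e]
  have hcs : c ^ e2 * c ^ (3 * e3 / 2) = Real.sqrt c := by
    rw [← Real.rpow_add_of_nonneg hc h2 (by positivity), Real.sqrt_eq_rpow]
    congr 1
    linarith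
  have h11 : (1040 : ℝ) ^ e3 ≤ 11 := by
    calc (1040 : ℝ) ^ e3 ≤ 1040 ^ (1 / 3 : ℝ) :=
          Real.rpow_le_rpow_of_exponent_le (by norm_num) (by linarith)
      _ ≤ (11 ^ (3 : ℝ)) ^ (1 / 3 : ℝ) := by
          refine Real.rpow_le_rpow (by norm_num) ?_ (by norm_num)
          rw [show (3 : ℝ) = ((3 : ℕ) : ℝ) by norm_num, Real.rpow_natCast]
          norm_num
      _ = 11 := by rw [← Real.rpow_mul (by norm_num)]; norm_num
  calc c ^ e2 * Y ^ e2 * (1040 ^ e3 * (c ^ (3 * e3 / 2) * X ^ (3 * e3 / 2)))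
      = 1040 ^ e3 * (c ^ e2 * c ^ (3 * e3 / 2)) * (Y ^ e2 * X ^ (3 * e3 / 2)) := by ring
    _ = 1040 ^ e3 * Real.sqrt c * (Y ^ e2 * X ^ (3 * e3 / 2)) := by rw [hcs]
    _ ≤ _ := by gcongr

/-- Young's inequality. -/
lemma young {s K x z δ : ℝ} (hs0 : 0 ≤ s) (hs1 : s < 1) (hK : 0 ≤ K) (hx : 0 ≤ x) (hz : 0 ≤ z)
    (hδ : 0 < δ) : K * (z ^ (1 - s) * x ^ s)
      ≤ δ * x + K ^ (1 / (1 - s)) * δ ^ (1 - 1 / (1 - s)) * z := by
  set q := 1 / (1 - s) with hq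
  have h1s : 0 < 1 - s := by linarith
  have hb : 0 ≤ K ^ q * δ ^ (1 - q) * z := by positivity
  have h := Real.geom_mean_le_arith_mean2_weighted hs0 h1s.le (mul_nonneg hδ.le hx) hb
    (by ring : s + (1 - s) = 1)
  have e : (δ * x) ^ s * (K ^ q * δ ^ (1 - q) * z) ^ (1 - s) = K * (z ^ (1 - s) * x ^ s) := by
    rw [Real.mul_rpow hδ.le hx, Real.mul_rpow (by positivity) hz,
      Real.mul_rpow (by positivity) (by positivity), ← Real.rpow_mul hK, ← Real.rpow_mul hδ.le]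
    have e1 : q * (1 - s) = 1 := by rw [hq]; field_simp
    have e2 : (1 - q) * (1 - s) = -s := by rw [sub_mul, e1]; ring
    rw [e1, e2, Real.rpow_one]
    have e3 : δ ^ s * δ ^ (-s) = 1 := by
      rw [← Real.rpow_add hδ]; simp
    calc δ ^ s * x ^ s * (K * δ ^ (-s) * z ^ (1 - s))
        = (δ ^ s * δ ^ (-s)) * (K * (z ^ (1 - s) * x ^ s)) := by ring
      _ = _ := by rw [e3, one_mul]
  rw [e] at h
  have h1 : s * (δ * x) ≤ δ * x := by
    have := mul_nonneg hδ.le hx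
    nlinarith
  have h2 : (1 - s) * (K ^ q * δ ^ (1 - q) * z) ≤ K ^ q * δ ^ (1 - q) * z := by nlinarith
  linarith

/-- The bound of `∫ f |a| |b|` for `f` in `L^p`, `3 ≤ p ≤ ∞`. -/
lemma bound_F {f : V → ℝ} (hf : AEStronglyMeasurable f μ) (ha : AEMeasurable a μ)
    (hb : AEMeasurable b μ) {p : ℝ≥0∞} (hp : 3 ≤ p) {β c X Y : ℝ} (hβ : 0 ≤ β) (hc : 0 ≤ c)
    (hX : 0 ≤ X) (hY : 0 ≤ Y) (hfp : eLpNorm f p μ ≤ ENNReal.ofReal β)
    (ha2 : ∫⁻ x, a x ^ (2 : ℝ) ∂μ ≤ ENNReal.ofReal (c * Y))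
    (ha3 : ∫⁻ x, a x ^ (3 : ℝ) ∂μ ≤ ENNReal.ofReal (1040 * (c * X) ^ (3 / 2 : ℝ)))
    (hb2 : ∫⁻ x, b x ^ (2 : ℝ) ∂μ ≤ ENNReal.ofReal (c * Y))
    (hb3 : ∫⁻ x, b x ^ (3 : ℝ) ∂μ ≤ ENNReal.ofReal (1040 * (c * X) ^ (3 / 2 : ℝ))) :
    ∫⁻ x, ‖f x‖ₑ * (a x * b x) ∂μ
      ≤ ENNReal.ofReal (β * (121 * c * (Y ^ (1 - 3 / p.toReal) * X ^ (3 / p.toReal)))) := by
  rcases eq_or_ne p ⊤ with htop | htop
  · subst htop
    rw [ENNReal.toReal_top, div_zero, sub_zero, Real.rpow_one, Real.rpow_zero, mul_one]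
    rw [eLpNorm_exponent_top] at hfp
    have h1 : ∀ᵐ x ∂μ, ‖f x‖ₑ ≤ ENNReal.ofReal β := by
      filter_upwards [ae_le_eLpNormEssSup (f := f) (μ := μ)] with x hx using hx.trans hfp
    have h2 : ∫⁻ x, a x * b x ∂μ ≤ ENNReal.ofReal (c * Y) := by
      have h := ENNReal.lintegral_mul_le_Lp_mul_Lq μ
        (by rw [Real.holderConjugate_iff]; norm_num : Real.HolderConjugate 2 2) ha hb
      simp only [Pi.mul_apply] at h
      refine h.trans ?_
      calc (∫⁻ x, a x ^ (2 : ℝ) ∂μ) ^ (1 / 2 : ℝ) * (∫⁻ x, b x ^ (2 : ℝ) ∂μ) ^ (1 / 2 : ℝ)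
          ≤ ENNReal.ofReal (c * Y) ^ (1 / 2 : ℝ) * ENNReal.ofReal (c * Y) ^ (1 / 2 : ℝ) := by
            gcongr
        _ = ENNReal.ofReal (c * Y) := by
            rw [← ENNReal.rpow_add_of_nonneg _ _ (by norm_num) (by norm_num)]
            norm_num
    calc ∫⁻ x, ‖f x‖ₑ * (a x * b x) ∂μ ≤ ∫⁻ x, ENNReal.ofReal β * (a x * b x) ∂μ := by
          refine lintegral_mono_ae ?_
          filter_upwards [h1] with x hx
          gcongr
      _ = ENNReal.ofReal β * ∫⁻ x, a x * b x ∂μ := by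
          rw [lintegral_const_mul' _ _ ENNReal.ofReal_ne_top]
      _ ≤ ENNReal.ofReal β * ENNReal.ofReal (c * Y) := by gcongr
      _ ≤ _ := by
          rw [← ENNReal.ofReal_mul hβ]
          refine ENNReal.ofReal_le_ofReal ?_
          have : 0 ≤ c * Y := by positivity
          gcongr
          linarith
  · set P := p.toReal with hPdef
    have hP3 : 3 ≤ P := by
      have := (ENNReal.toReal_le_toReal (by norm_num) htop).2 hp
      simpa using this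
    have hP0 : 0 < P := by linarith
    have hp0 : p ≠ 0 := by
      rintro rfl
      simp at hp
    rw [eLpNorm_eq_lintegral_rpow_enorm_toReal hp0 htop] at hfp
    have h3P : 3 / P ≤ 1 := by rw [div_le_one hP0]; exact hP3
    have h3P0 : 0 ≤ 3 / P := by positivity
    have h := hold5 (μ := μ) hf.enorm ha hb (P := P) (e2 := (1 - 3 / P) / 2) (e3 := 1 / P)
      (e4 := (1 - 3 / P) / 2) (e5 := 1 / P) hP0 (by linarith) (by positivity) (by linarith)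
      (by positivity) (by ring) (by ring) (by ring)
    refine h.trans ?_
    have k1 := plug (e2 := (1 - 3 / P) / 2) (e3 := 1 / P) hc hX hY (by linarith) (by positivity)
      (by ring) ha2 ha3
    have k2 := plug (e2 := (1 - 3 / P) / 2) (e3 := 1 / P) hc hX hY (by linarith) (by positivity)
      (by ring) hb2 hb3
    calc _ ≤ ENNReal.ofReal β
          * ENNReal.ofReal (11 * Real.sqrt c * (Y ^ ((1 - 3 / P) / 2) * X ^ (3 * (1 / P) / 2)))
          * ENNReal.ofReal (11 * Real.sqrt c * (Y ^ ((1 - 3 / P) / 2) * X ^ (3 * (1 / P) / 2))) := by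
          gcongr
      _ = _ := by
          rw [← ENNReal.ofReal_mul hβ, ← ENNReal.ofReal_mul (by positivity)]
          congr 1
          have e1 : Y ^ (1 - 3 / P) = Y ^ ((1 - 3 / P) / 2) * Y ^ ((1 - 3 / P) / 2) := by
            rw [← Real.rpow_add_of_nonneg hY (by linarith) (by linarith)]
            congr 1; ring
          have e2 : X ^ (3 / P) = X ^ (3 * (1 / P) / 2) * X ^ (3 * (1 / P) / 2) := by
            rw [← Real.rpow_add_of_nonneg hX (by positivity) (by positivity)]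
            congr 1; ring
          rw [e1, e2]
          have e3 : Real.sqrt c * Real.sqrt c = c := Real.mul_self_sqrt hc
          calc _ = β * (121 * (Real.sqrt c * Real.sqrt c)
              * ((Y ^ ((1 - 3 / P) / 2) * Y ^ ((1 - 3 / P) / 2))
                * (X ^ (3 * (1 / P) / 2) * X ^ (3 * (1 / P) / 2)))) := by ring
            _ = _ := by rw [e3]

/-- The bound of `∫ g |a| |b|` for `g` in `L^r`, `3 ≤ r ≤ 6`. -/
lemma bound_G {g : V → ℝ} (hg : AEStronglyMeasurable g μ) (ha : AEMeasurable a μ)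
    (hb : AEMeasurable b μ) {r : ℝ} (hr : r ∈ Icc (3 : ℝ) 6) {β c X Y Z : ℝ} (hβ : 0 ≤ β)
    (hc : 0 ≤ c) (hX : 0 ≤ X) (hY : 0 ≤ Y) (hZ : 0 ≤ Z)
    (hgr : eLpNorm g (ENNReal.ofReal r) μ ≤ ENNReal.ofReal β)
    (ha3 : ∫⁻ x, a x ^ (3 : ℝ) ∂μ ≤ ENNReal.ofReal (1040 * (1 * Z) ^ (3 / 2 : ℝ)))
    (hb2 : ∫⁻ x, b x ^ (2 : ℝ) ∂μ ≤ ENNReal.ofReal (c * Y))
    (hb3 : ∫⁻ x, b x ^ (3 : ℝ) ∂μ ≤ ENNReal.ofReal (1040 * (c * X) ^ (3 / 2 : ℝ))) :
    ∫⁻ x, ‖g x‖ₑ * (a x * b x) ∂μ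
      ≤ ENNReal.ofReal (β * (121 * Real.sqrt c
        * (Z ^ (1 / 2 : ℝ) * (Y ^ (1 - 3 / r) * X ^ (3 / r - 1 / 2))))) := by
  have hr0 : 0 < r := by linarith [hr.1]
  have h3 : 3 / r ≤ 1 := by rw [div_le_one hr0]; exact hr.1
  have h6 : 1 / 6 ≤ 1 / r := by
    rw [div_le_div_iff₀ (by norm_num) hr0]
    linarith [hr.2]
  have e3r : 3 / r = 3 * (1 / r) := by ring
  have e2r : 2 / r = 2 * (1 / r) := by ring
  have hpos : 0 < ENNReal.ofReal r := ENNReal.ofReal_pos.2 hr0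
  rw [eLpNorm_eq_lintegral_rpow_enorm_toReal hpos.ne' ENNReal.ofReal_ne_top,
    ENNReal.toReal_ofReal hr0.le] at hgr
  have h := hold5 (μ := μ) hg.enorm ha hb (P := r) (e2 := 0) (e3 := 1 / 3)
      (e4 := 1 - 3 / r) (e5 := 2 / r - 1 / 3) hr0 le_rfl (by norm_num) (by linarith)
      (by rw [e2r]; linarith) (by norm_num) (by rw [e3r, e2r]; ring) (by rw [e3r, e2r]; ring)
  refine h.trans ?_
  rw [ENNReal.rpow_zero, one_mul]
  have k1 := plug (A2 := 1) (e2 := 0) (e3 := 1 / 3) (c := 1) zero_le_one hZ zero_le_one le_rfl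
    (by norm_num) (by norm_num) (by simp) ha3
  rw [ENNReal.rpow_zero, one_mul, Real.rpow_zero, one_mul, Real.sqrt_one, mul_one] at k1
  have k2 := plug (e2 := 1 - 3 / r) (e3 := 2 / r - 1 / 3) hc hX hY (by linarith)
    (by rw [e2r]; linarith) (by rw [e3r, e2r]; ring) hb2 hb3
  calc _ ≤ ENNReal.ofReal β
        * ENNReal.ofReal (11 * Z ^ (3 * (1 / 3) / 2 : ℝ))
        * ENNReal.ofReal (11 * Real.sqrt c
          * (Y ^ (1 - 3 / r) * X ^ (3 * (2 / r - 1 / 3) / 2))) := by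
        gcongr
    _ = _ := by
        rw [← ENNReal.ofReal_mul hβ, ← ENNReal.ofReal_mul (by positivity)]
        congr 1
        have e1 : (3 * (1 / 3) / 2 : ℝ) = 1 / 2 := by norm_num
        have e2 : 3 * (2 / r - 1 / 3) / 2 = 3 / r - 1 / 2 := by ring
        rw [e1, e2]
        ring

end Pool.Agent.X96.LV
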