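import Pool.Agent.X96.LV.L3
import Pool.Agent.X96.LV.Gen

/-!
The production of the norm of `H^{1/2}` as an integral of `u · (ω × Λ u)`.
-/

open MeasureTheory Set Filter Topology
open scoped ContDiff
open H459R3.NS

namespace Pool.Agent.X96.LV

open Pool.Agent.X96.HT

/-- The vorticity `curl v`. -/
noncomputable def curl (v : V → V) (x : V) : V :=
  ![pd 1 (fun y => v y 2) x - pd 2 (fun y => v y 1) x,
    pd 2 (fun y => v y 0) x - pd 0 (fun y => v y 2) x,
    pd 0 (fun y => v y 1) x - pd 1 (fun y => v y 0) x]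

/-- The coefficients `(2 π |k|)^a v(k)` of `(-Δ)^(a/2) v`. -/
noncomputable def lc (a : ℝ) (v : V → V) (i : Fin 3) (k : K3) : ℂ :=
  ((2 * Real.pi * kn k) ^ a : ℝ) * co v k i

/-- `Λ^a v = (-Δ)^(a/2) v`, by its Fourier series. -/
noncomputable def Lam (a : ℝ) (v : V → V) (x : V) : V := fun i => (S (lc a v i) x).re

/-- The triple product `a · (b × c)`. -/
def det3 (a b c : V) : ℝ :=
  a 0 * (b 1 * c 2 - b 2 * c 1) + a 1 * (b 2 * c 0 - b 0 * c 2) + a 2 * (b 0 * c 1 - b 1 * c 0)

variable {v : V → V}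

lemma lc_summable (hv : ∀ i, SP (fun x => v x i)) {a : ℝ} (ha0 : 0 ≤ a) (ha : a ≤ 3) (i : Fin 3) :
    Summable (lc a v i) := by
  have h1 := (rapV_co hv) 3
  have h0 := (rapV_co hv) 0
  simp only [pow_zero, one_mul] at h0
  have hpi := Real.pi_gt_three
  refine Summable.of_norm (Summable.of_nonneg_of_le (fun k => norm_nonneg _) (fun k => ?_)
    ((h1.mul_left ((2 * Real.pi) ^ 3)).add h0))
  have hk := kn_nonneg k
  unfold lc
  rw [norm_mul, Complex.norm_real, Real.norm_eq_abs, abs_of_nonneg (Real.rpow_nonneg (by positivity) _)]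
  have h2 : ‖co v k i‖ ≤ ‖co v k‖ := norm_le_pi_norm _ _
  have h3 : (2 * Real.pi * kn k) ^ a ≤ (2 * Real.pi * kn k) ^ 3 + 1 := by
    rcases le_total 1 (2 * Real.pi * kn k) with h | h
    · have : (2 * Real.pi * kn k) ^ a ≤ (2 * Real.pi * kn k) ^ (3 : ℝ) :=
        Real.rpow_le_rpow_of_exponent_le h ha
      have e : (2 * Real.pi * kn k) ^ (3 : ℝ) = (2 * Real.pi * kn k) ^ 3 := by
        rw [← Real.rpow_natCast]; norm_num
      exact (this.trans e.le).trans (le_add_of_nonneg_right zero_le_one)
    · have : (2 * Real.pi * kn k) ^ a ≤ 1 := Real.rpow_le_one (by positivity) h ha0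
      have : 0 ≤ (2 * Real.pi * kn k) ^ 3 := by positivity
      linarith
  calc (2 * Real.pi * kn k) ^ a * ‖co v k i‖
      ≤ ((2 * Real.pi * kn k) ^ 3 + 1) * ‖co v k‖ := by gcongr
    _ = _ := by ring

lemma Lam_continuous (hv : ∀ i, SP (fun x => v x i)) {a : ℝ} (ha0 : 0 ≤ a) (ha : a ≤ 3)
    (i : Fin 3) : Continuous fun x => Lam a v x i :=
  Complex.continuous_re.comp (S_continuous (lc_summable hv ha0 ha i))

/-- Parseval with a series. -/
lemma parseval {b : K3 → ℂ} (hb : Summable b) {g : V → ℝ} (hg : Continuous g) :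
    HasSum (fun k => b k * fr g (-k)) (∫ x in cube, S b x * (g x : ℂ)) := by
  have h := integral_S_mul hb (g := fun x => (g x : ℂ)) (Complex.continuous_ofReal.comp hg)
  have e : (fun k => b k * fr g (-k)) = fun k => b k * ∫ x in cube, ee k x * (g x : ℂ) := by
    funext k
    unfold fr fc
    rw [neg_neg]
  rw [e]; exact h

lemma re_integral {b : K3 → ℂ} (hb : Summable b) {g : V → ℝ} (hg : Continuous g) :
    (∫ x in cube, S b x * (g x : ℂ)).re = ∫ x in cube, (S b x).re * g x := by
  have hc := S_continuous hb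
  have hi : Integrable (fun x => S b x * (g x : ℂ)) (volume.restrict cube) :=
    integrableOn_cube (hc.mul (Complex.continuous_ofReal.comp hg))
  have := integral_re (𝕜 := ℂ) hi
  simp only [RCLike.re_eq_complex_re] at this
  rw [← this]
  congr 1
  funext x
  rw [mul_comm (S b x), Complex.re_ofReal_mul, mul_comm]

/-- the production as an integral -/
lemma prod_conv (hv : ∀ i, SP (fun x => v x i)) :
    4 * Real.pi ^ 2 * (T3s (ft (co v))).re
      = ∑ i, ∫ x in cube, Lam 1 v x i * conv (fun i y => v y i) i x := by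
  have hU := rapV_co hv
  have hS : S3s (fun k p q => ft (co v) k q p) := S3s_23 (S3s_ft hU)
  have hT : T3s (fun k p q => ft (co v) k q p) = T3s (ft (co v)) := T3s_23 _
  have h1 : HasSum (fun p : K3 × K3 => 2 * Real.pi * ft (co v) p.1 (-p.1 - p.2) p.2)
      (2 * Real.pi * T3s (ft (co v))) := by
    rw [← hT]
    exact (Summable.hasSum hS).mul_left _
  have h2 : ∀ k, HasSum (fun l => 2 * Real.pi * ft (co v) k (-k - l) l)
      (kn k * ∑ i, co v k i * fr (conv (fun i y => v y i) i) (-k)) := by
    intro k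
    have h3 : HasSum (fun l => ∑ i, co v k i * (2 * Real.pi * Complex.I
        * (dp (kc (-k - l)) (co v l) * co v (-k - l) i)))
        (∑ i, co v k i * fr (conv (fun i y => v y i) i) (-k)) :=
      hasSum_sum fun i _ => (hasSum_conv hv i k).mul_left _
    have h4 := h3.mul_left (kn k : ℂ)
    have e : (fun l => 2 * Real.pi * ft (co v) k (-k - l) l)
        = fun l => (kn k : ℂ) * ∑ i, co v k i * (2 * Real.pi * Complex.I
        * (dp (kc (-k - l)) (co v l) * co v (-k - l) i)) := by
      funext l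
      unfold ft
      rw [Fin.sum_univ_three]
      have : dp (co v (-k - l)) (co v k) = co v (-k - l) 0 * co v k 0
        + co v (-k - l) 1 * co v k 1 + co v (-k - l) 2 * co v k 2 := rfl
      rw [this]
      ring
    rw [e]; exact h4
  have h5 := (h1.prod_fiberwise h2).mul_left (2 * Real.pi : ℂ)
  have h6 : HasSum (fun k => ∑ i, lc 1 v i k * fr (conv (fun i y => v y i) i) (-k))
      (∑ i, ∫ x in cube, S (lc 1 v i) x * (conv (fun i y => v y i) i x : ℂ)) :=
    hasSum_sum fun i _ => parseval (lc_summable hv zero_le_one (by norm_num) i)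
      (HT.sp_conv hv i).cont
  have e7 : (fun k => ∑ i, lc 1 v i k * fr (conv (fun i y => v y i) i) (-k))
      = fun k => (2 * Real.pi : ℂ) * (kn k * ∑ i, co v k i
        * fr (conv (fun i y => v y i) i) (-k)) := by
    funext k
    rw [Finset.mul_sum, Finset.mul_sum]
    refine Finset.sum_congr rfl fun i _ => ?_
    unfold lc
    rw [Real.rpow_one]
    push_cast
    ring
  rw [e7] at h6
  have h8 := h5.unique h6
  have h9 := congrArg Complex.re h8
  rw [Complex.re_sum] at h9
  have e10 : (2 * Real.pi * (2 * Real.pi * T3s (ft (co v)))).re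
      = 4 * Real.pi ^ 2 * (T3s (ft (co v))).re := by
    have : (2 * Real.pi * (2 * Real.pi * T3s (ft (co v))) : ℂ)
        = ((4 * Real.pi ^ 2 : ℝ) : ℂ) * T3s (ft (co v)) := by
      push_cast; ring
    rw [this, Complex.re_ofReal_mul]
  rw [e10] at h9
  rw [h9]
  refine Finset.sum_congr rfl fun i _ => ?_
  rw [re_integral (lc_summable hv zero_le_one (by norm_num) i) (HT.sp_conv hv i).cont]
  rfl

/-- gradients are orthogonal to `Λ v` -/
lemma grad_orth (hv : ∀ i, SP (fun x => v x i))
    (hdiv : ∀ x, ∑ i, pd i (fun y => v y i) x = 0) {φ : V → ℝ} (hφ : SP φ) :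
    ∑ i, ∫ x in cube, Lam 1 v x i * pd i φ x = 0 := by
  have h6 : HasSum (fun k => ∑ i, lc 1 v i k * fr (pd i φ) (-k))
      (∑ i, ∫ x in cube, S (lc 1 v i) x * ((pd i φ x : ℝ) : ℂ)) :=
    hasSum_sum fun i _ => parseval (lc_summable hv zero_le_one (by norm_num) i) (hφ.pd i).cont
  have e : (fun k => ∑ i, lc 1 v i k * fr (pd i φ) (-k)) = fun _ => 0 := by
    funext k
    have h0 := dp_co hv hdiv k
    unfold dp kc at h0
    simp_rw [fr_pd hφ, D]
    unfold lc
    rw [Fin.sum_univ_three]
    simp only [Pi.neg_apply, Int.cast_neg, Real.rpow_one]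
    push_cast
    linear_combination (-(2 * Real.pi * kn k) * (2 * Real.pi * Complex.I * fr φ (-k)) : ℂ) * h0
  rw [e] at h6
  have h7 := h6.unique hasSum_zero
  have h8 := congrArg Complex.re h7
  rw [Complex.re_sum, Complex.zero_re] at h8
  rw [← h8]
  refine Finset.sum_congr rfl fun i _ => ?_
  rw [re_integral (lc_summable hv zero_le_one (by norm_num) i) (hφ.pd i).cont]
  rfl

/-- The production of the norm of `H^{1/2}` is an integral of `v · (curl v × Λ v)`. -/
theorem prod_det (hv : ∀ i, SP (fun x => v x i))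
    (hdiv : ∀ x, ∑ i, pd i (fun y => v y i) x = 0) :
    4 * Real.pi ^ 2 * (T3s (ft (co v))).re
      = -∫ x in cube, det3 (v x) (curl v x) (Lam 1 v x) := by
  rw [prod_conv hv]
  set φ : V → ℝ := fun x => ∑ j, v x j * v x j with hφ
  have hφS : SP φ := SP.sum fun j _ => (hv j).mul (hv j)
  have h0 := grad_orth hv hdiv hφS
  have hpd : ∀ i x, pd i φ x = ∑ j, 2 * (v x j * pd i (fun y => v y j) x) := by
    intro i x
    have : φ = fun x => ∑ j, (fun y => v y j * v y j) x := rfl
    rw [this, pd_sum (fun j _ => (hv j).mul (hv j))]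
    refine Finset.sum_congr rfl fun j _ => ?_
    rw [pd_mul (hv j) (hv j)]
    ring
  have hLc : ∀ i, Continuous fun x => Lam 1 v x i := fun i =>
    Lam_continuous hv zero_le_one (by norm_num) i
  have i1 : ∀ i, Integrable (fun x => Lam 1 v x i * conv (fun i y => v y i) i x)
      (volume.restrict cube) := fun i => integrableOn_cube ((hLc i).mul (HT.sp_conv hv i).cont)
  have i2 : ∀ i, Integrable (fun x => Lam 1 v x i * pd i φ x)
      (volume.restrict cube) := fun i => integrableOn_cube ((hLc i).mul (hφS.pd i).cont)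
  have e1 : ∑ i, ∫ x in cube, Lam 1 v x i * conv (fun i y => v y i) i x
      = (∑ i, ∫ x in cube, Lam 1 v x i * conv (fun i y => v y i) i x)
        - 1 / 2 * (∑ i, ∫ x in cube, Lam 1 v x i * pd i φ x) := by
    rw [h0]; ring
  rw [e1, ← integral_finsetSum _ fun i _ => i1 i, ← integral_finsetSum _ fun i _ => i2 i,
    ← integral_const_mul, ← integral_sub (integrable_finsetSum _ fun i _ => i1 i)
      ((integrable_finsetSum _ fun i _ => i2 i).const_mul _), ← integral_neg]
  congr 1
  funext x
  simp_rw [hpd]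
  unfold det3 curl conv
  simp only [Fin.sum_univ_three, Matrix.cons_val_zero, Matrix.cons_val_one, Matrix.cons_val]
  ring

end Pool.Agent.X96.LV
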