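import Pool.Agent.X96.HT.Crit2

/-!
The embedding of `H^{1/2}` into `L³` on the torus.
-/

open MeasureTheory Set Filter Topology
open scoped ENNReal
open H459R3.NS

namespace Pool.Agent.X96.LV

open Pool.Agent.X96.HT

lemma S_add {a b : K3 → ℂ} (ha : Summable a) (hb : Summable b) (x : V) :
    S (fun k => a k + b k) x = S a x + S b x := by
  unfold S
  rw [← (summable_term ha x).tsum_add (summable_term hb x)]
  exact tsum_congr fun k => by ring

/-- bound of the low frequencies -/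
lemma low_sup {b : K3 → ℂ} (hb : Summable b) (h0 : b 0 = 0) {M : ℝ} (hM0 : 0 ≤ M)
    (hs : Summable fun k => (N k : ℝ) * ‖b k‖ ^ 2) (hM : ∑' k, (N k : ℝ) * ‖b k‖ ^ 2 ≤ M)
    {R : ℝ} (hR : 0 ≤ R) (x : V) :
    ‖S ({k : K3 | (N k : ℝ) ≤ R}.indicator b) x‖ ≤ Real.sqrt 54 * Real.sqrt M * R := by
  classical
  have hbi : Summable ({k : K3 | (N k : ℝ) ≤ R}.indicator b) := by
    refine Summable.of_norm (Summable.of_nonneg_of_le (fun k => norm_nonneg _) (fun k => ?_)
      hb.norm)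
    exact norm_indicator_le_norm_self _ _
  refine (norm_S_le hbi x).trans ?_
  refine Real.tsum_le_of_sum_le (fun k => norm_nonneg _) fun F => ?_
  set G := F.filter fun k => 0 < N k ∧ (N k : ℝ) ≤ R with hG
  have e1 : ∑ k ∈ F, ‖{k : K3 | (N k : ℝ) ≤ R}.indicator b k‖ = ∑ k ∈ G, ‖b k‖ := by
    rw [hG, Finset.sum_filter]
    refine Finset.sum_congr rfl fun k _ => ?_
    rw [Set.indicator_apply]
    by_cases hk : k = 0
    · subst hk
      rw [if_neg (fun h : 0 < N (0 : K3) ∧ (N (0 : K3) : ℝ) ≤ R => by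
        have := h.1
        rw [N_eq_zero.2 rfl] at this
        exact lt_irrefl _ this)]
      split_ifs
      · rw [h0, norm_zero]
      · rw [norm_zero]
    · have hN : 0 < N k := Nat.pos_of_ne_zero fun h => hk (N_eq_zero.1 h)
      by_cases h1 : (N k : ℝ) ≤ R
      · rw [if_pos (show k ∈ {k : K3 | (N k : ℝ) ≤ R} from h1), if_pos ⟨hN, h1⟩]
      · rw [if_neg (show k ∉ {k : K3 | (N k : ℝ) ≤ R} from h1), if_neg (fun h => h1 h.2),
          norm_zero]
  rw [e1]
  have hGm : ∀ k ∈ G, 0 < N k ∧ (N k : ℝ) ≤ R := fun k hk => (Finset.mem_filter.1 hk).2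
  rcases lt_or_ge R 1 with hR1 | hR1
  · have hG0 : G = ∅ := by
      refine Finset.eq_empty_of_forall_notMem fun k hk => ?_
      have h1 := hGm k hk
      have h2 : (1 : ℝ) ≤ N k := by exact_mod_cast h1.1
      linarith
    rw [hG0, Finset.sum_empty]
    positivity
  have hfl : 1 ≤ ⌊R⌋₊ := Nat.le_floor (by simpa using hR1)
  have h1 := cube_sum1 ⌊R⌋₊ hfl G fun k hk => ⟨(hGm k hk).1, Nat.le_floor (hGm k hk).2⟩
  have h2 : (∑ k ∈ G, ‖b k‖) ^ 2 ≤ (∑ k ∈ G, (1 : ℝ) / (N k : ℝ)) * ∑ k ∈ G, N k * ‖b k‖ ^ 2 := by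
    refine Finset.sum_sq_le_sum_mul_sum_of_sq_le_mul G (fun k _ => by positivity)
      (fun k _ => by positivity) fun k hk => ?_
    have : (0 : ℝ) < N k := by exact_mod_cast (hGm k hk).1
    refine le_of_eq ?_
    field_simp
  have h3 : ∑ k ∈ G, (N k : ℝ) * ‖b k‖ ^ 2 ≤ M :=
    (hs.sum_le_tsum G fun k _ => by positivity).trans hM
  have h4 := Nat.floor_le hR
  have h5 : (∑ k ∈ G, ‖b k‖) ^ 2 ≤ (Real.sqrt 54 * Real.sqrt M * R) ^ 2 := by
    calc (∑ k ∈ G, ‖b k‖) ^ 2 ≤ (∑ k ∈ G, (1 : ℝ) / (N k : ℝ)) * ∑ k ∈ G, N k * ‖b k‖ ^ 2 := h2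
      _ ≤ (54 * (⌊R⌋₊ : ℝ) ^ 2) * M := by
        refine mul_le_mul h1 h3 (Finset.sum_nonneg fun k _ => by positivity) (by positivity)
      _ ≤ (54 * R ^ 2) * M := by gcongr
      _ = _ := by
        rw [mul_pow, mul_pow, Real.sq_sqrt (by norm_num), Real.sq_sqrt hM0]; ring
  exact (pow_le_pow_iff_left₀ (Finset.sum_nonneg fun k _ => norm_nonneg _) (by positivity)
    (by norm_num)).1 h5

/-- measure of a super level set -/
lemma level {b : K3 → ℂ} (hb : Summable b) (h0 : b 0 = 0) {M : ℝ} (hM0 : 0 < M)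
    (hs : Summable fun k => (N k : ℝ) * ‖b k‖ ^ 2) (hM : ∑' k, (N k : ℝ) * ‖b k‖ ^ 2 ≤ M)
    {l : ℝ} (hl : 0 < l) :
    (volume.restrict cube) {x | l < ‖S b x‖} * ENNReal.ofReal (l ^ 2)
      ≤ 4 * ∑' k, ENNReal.ofReal (‖b k‖ ^ 2)
        * (Iio (2 * Real.sqrt 54 * Real.sqrt M * N k)).indicator 1 l := by
  classical
  set c : ℝ := 2 * Real.sqrt 54 * Real.sqrt M with hc
  have hsM : 0 < Real.sqrt M := Real.sqrt_pos.2 hM0
  have hs54 : 0 < Real.sqrt 54 := Real.sqrt_pos.2 (by norm_num)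
  have hc0 : 0 < c := by positivity
  set R : ℝ := l / c with hR
  have hR0 : 0 ≤ R := by positivity
  set A : Set K3 := {k : K3 | (N k : ℝ) ≤ R} with hA
  set lo := A.indicator b with hlo
  set hi := Aᶜ.indicator b with hhi
  have slo : Summable lo := by
    refine Summable.of_norm (Summable.of_nonneg_of_le (fun k => norm_nonneg _) (fun k => ?_)
      hb.norm)
    exact norm_indicator_le_norm_self _ _
  have shi : Summable hi := by
    refine Summable.of_norm (Summable.of_nonneg_of_le (fun k => norm_nonneg _) (fun k => ?_)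
      hb.norm)
    exact norm_indicator_le_norm_self _ _
  have hsum : ∀ x, S b x = S lo x + S hi x := by
    intro x
    rw [← S_add slo shi]
    congr 1
    funext k
    rw [hlo, hhi, ← Pi.add_apply, Set.indicator_self_add_compl]
  have hlow : ∀ x, ‖S lo x‖ ≤ l / 2 := by
    intro x
    refine (low_sup hb h0 hM0.le hs hM hR0 x).trans (le_of_eq ?_)
    rw [hR, hc]
    field_simp
  have hsub : {x | l < ‖S b x‖} ⊆ {x | ENNReal.ofReal ((l / 2) ^ 2)
      ≤ ENNReal.ofReal (‖S hi x‖ ^ 2)} := by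
    intro x hx
    have h1 : l < ‖S b x‖ := hx
    rw [hsum] at h1
    have h2 := norm_add_le (S lo x) (S hi x)
    have h3 := hlow x
    refine ENNReal.ofReal_le_ofReal ?_
    have h4 : l / 2 ≤ ‖S hi x‖ := by linarith
    gcongr
  have hmeas : Measurable fun x => ENNReal.ofReal (‖S hi x‖ ^ 2) :=
    ((S_continuous shi).norm.pow 2).measurable.ennreal_ofReal
  have h1 := mul_meas_ge_le_lintegral (μ := volume.restrict cube) hmeas
    (ENNReal.ofReal ((l / 2) ^ 2))
  have h2 : ∫⁻ x in cube, ENNReal.ofReal (‖S hi x‖ ^ 2) = ∑' k, ENNReal.ofReal (‖hi k‖ ^ 2) := by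
    have hint : Integrable (fun x => ‖S hi x‖ ^ 2) (volume.restrict cube) :=
      integrableOn_cube ((S_continuous shi).norm.pow 2)
    rw [← ofReal_integral_eq_lintegral_ofReal hint
      (Eventually.of_forall fun x => sq_nonneg _), integral_norm_sq shi, n2_sq,
      ENNReal.ofReal_tsum_of_nonneg (fun k => sq_nonneg _) (summable_sq shi)]
  rw [h2] at h1
  have h3 : ∀ k, ENNReal.ofReal (‖hi k‖ ^ 2)
      ≤ ENNReal.ofReal (‖b k‖ ^ 2) * (Iio (c * N k)).indicator 1 l := by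
    intro k
    by_cases hk : k ∈ A
    · have : hi k = 0 := by
        rw [hhi, Set.indicator_of_notMem]
        exact fun h => h hk
      rw [this]
      simp
    · have h4 : l ∈ Iio (c * (N k : ℝ)) := by
        have h5 : R < N k := not_le.1 hk
        rw [hR, div_lt_iff₀ hc0] at h5
        rw [mem_Iio]; linarith
      rw [Set.indicator_of_mem h4, Pi.one_apply, mul_one, hhi, Set.indicator_of_mem]
      exact hk
  have h5 : (volume.restrict cube) {x | l < ‖S b x‖} * ENNReal.ofReal ((l / 2) ^ 2)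
      ≤ ∑' k, ENNReal.ofReal (‖b k‖ ^ 2) * (Iio (c * (N k : ℝ))).indicator 1 l := by
    calc (volume.restrict cube) {x | l < ‖S b x‖} * ENNReal.ofReal ((l / 2) ^ 2)
        ≤ (volume.restrict cube) {x | ENNReal.ofReal ((l / 2) ^ 2)
          ≤ ENNReal.ofReal (‖S hi x‖ ^ 2)} * ENNReal.ofReal ((l / 2) ^ 2) := by
          gcongr
      _ = ENNReal.ofReal ((l / 2) ^ 2) * (volume.restrict cube) {x | ENNReal.ofReal ((l / 2) ^ 2)
          ≤ ENNReal.ofReal (‖S hi x‖ ^ 2)} := mul_comm _ _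
      _ ≤ ∑' k, ENNReal.ofReal (‖hi k‖ ^ 2) := h1
      _ ≤ _ := ENNReal.tsum_le_tsum h3
  have e6 : ENNReal.ofReal (l ^ 2) = 4 * ENNReal.ofReal ((l / 2) ^ 2) := by
    rw [show (4 : ℝ≥0∞) = ENNReal.ofReal 4 by norm_num, ← ENNReal.ofReal_mul (by norm_num)]
    congr 1
    ring
  rw [e6, ← mul_assoc, mul_comm _ (4 : ℝ≥0∞), mul_assoc]
  gcongr

/-- The embedding of `H^{1/2}` into `L³`. -/
theorem l3 {b : K3 → ℂ} (hb : Summable b) (h0 : b 0 = 0) {M : ℝ}
    (hs : Summable fun k => (N k : ℝ) * ‖b k‖ ^ 2) (hM : ∑' k, (N k : ℝ) * ‖b k‖ ^ 2 ≤ M) :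
    ∫⁻ x in cube, ENNReal.ofReal (‖S b x‖ ^ (3 : ℝ)) ≤ ENNReal.ofReal (200 * M ^ (3 / 2 : ℝ)) := by
  have hM0 : 0 ≤ M := (tsum_nonneg fun k => by positivity).trans hM
  rcases hM0.eq_or_lt with hM1 | hM1
  · have hbz : b = 0 := by
      funext k
      by_cases hk : k = 0
      · rw [hk, h0]; rfl
      have h1 : (N k : ℝ) * ‖b k‖ ^ 2 ≤ 0 := by
        rw [← hM1] at hM
        exact (hs.le_tsum k fun j _ => by positivity).trans hM
      have hN : (0 : ℝ) < N k := by exact_mod_cast Nat.pos_of_ne_zero fun h => hk (N_eq_zero.1 h)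
      have h2 : ‖b k‖ ^ 2 ≤ 0 := by
        by_contra hc
        have := mul_pos hN (not_le.1 hc)
        linarith
      have h3 : ‖b k‖ = 0 := pow_eq_zero_iff (two_ne_zero) |>.1 (le_antisymm h2 (sq_nonneg _))
      simpa using h3
    have : ∀ x, S b x = 0 := by
      intro x; rw [hbz]; unfold S; simp
    simp_rw [this]
    simp
  set c : ℝ := 2 * Real.sqrt 54 * Real.sqrt M with hc
  have hsM : 0 < Real.sqrt M := Real.sqrt_pos.2 hM1
  have hs54 : 0 < Real.sqrt 54 := Real.sqrt_pos.2 (by norm_num)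
  have hc0 : 0 < c := by positivity
  rw [lintegral_rpow_eq_lintegral_meas_lt_mul (volume.restrict cube)
    (Eventually.of_forall fun x => norm_nonneg _)
    (S_continuous hb).norm.aemeasurable (by norm_num : (0 : ℝ) < 3)]
  have h1 : ∫⁻ t in Ioi (0 : ℝ), (volume.restrict cube) {a | t < ‖S b a‖}
      * ENNReal.ofReal (t ^ ((3 : ℝ) - 1))
      ≤ ∫⁻ t in Ioi (0 : ℝ), 4 * ∑' k, ENNReal.ofReal (‖b k‖ ^ 2)
        * (Iio (c * N k)).indicator 1 t := by
    refine setLIntegral_mono' measurableSet_Ioi fun t ht => ?_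
    have e : t ^ ((3 : ℝ) - 1) = t ^ 2 := by
      rw [show (3 : ℝ) - 1 = ((2 : ℕ) : ℝ) by norm_num, Real.rpow_natCast]
    rw [e]
    exact level hb h0 hM1 hs hM ht
  have h2 : ∫⁻ t in Ioi (0 : ℝ), 4 * ∑' k, ENNReal.ofReal (‖b k‖ ^ 2)
        * (Iio (c * N k)).indicator 1 t
      = 4 * ∑' k, ENNReal.ofReal (‖b k‖ ^ 2) * ENNReal.ofReal (c * N k) := by
    have hm : ∀ k : K3, Measurable fun t : ℝ => ENNReal.ofReal (‖b k‖ ^ 2)
        * (Iio (c * (N k : ℝ))).indicator (1 : ℝ → ℝ≥0∞) t := fun k =>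
      (measurable_one.indicator measurableSet_Iio).const_mul _
    rw [lintegral_const_mul _ (Measurable.ennreal_tsum hm),
      lintegral_tsum fun k => (hm k).aemeasurable]
    congr 1
    refine tsum_congr fun k => ?_
    rw [lintegral_const_mul _ (measurable_one.indicator measurableSet_Iio)]
    congr 1
    rw [lintegral_indicator measurableSet_Iio, Measure.restrict_restrict measurableSet_Iio]
    simp only [Pi.one_apply, lintegral_const, one_mul, MeasurableSet.univ,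
      Measure.restrict_apply, univ_inter]
    rw [show Iio (c * (N k : ℝ)) ∩ Ioi (0 : ℝ) = Ioo 0 (c * N k) by
      ext t; simp [and_comm]]
    rw [Real.volume_Ioo, sub_zero]
  have h3 : ∑' k, ENNReal.ofReal (‖b k‖ ^ 2) * ENNReal.ofReal (c * N k)
      ≤ ENNReal.ofReal (c * M) := by
    have e : ∀ k : K3, ENNReal.ofReal (‖b k‖ ^ 2) * ENNReal.ofReal (c * N k)
        = ENNReal.ofReal (c * (N k * ‖b k‖ ^ 2)) := by
      intro k
      rw [← ENNReal.ofReal_mul (sq_nonneg _)]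
      congr 1
      ring
    simp_rw [e]
    rw [← ENNReal.ofReal_tsum_of_nonneg (fun k => by positivity) (hs.mul_left c)]
    refine ENNReal.ofReal_le_ofReal ?_
    rw [tsum_mul_left]
    gcongr
  calc ENNReal.ofReal 3 * ∫⁻ t in Ioi (0 : ℝ), (volume.restrict cube) {a | t < ‖S b a‖}
      * ENNReal.ofReal (t ^ ((3 : ℝ) - 1))
      ≤ ENNReal.ofReal 3 * (4 * ENNReal.ofReal (c * M)) := by
        gcongr
        refine h1.trans ?_
        rw [h2]
        gcongr
    _ = ENNReal.ofReal (12 * c * M) := by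
      rw [show (4 : ℝ≥0∞) = ENNReal.ofReal 4 by norm_num, ← ENNReal.ofReal_mul (by norm_num),
        ← ENNReal.ofReal_mul (by norm_num)]
      congr 1
      ring
    _ ≤ _ := by
      refine ENNReal.ofReal_le_ofReal ?_
      have e1 : M ^ (3 / 2 : ℝ) = Real.sqrt M * M := by
        rw [show (3 / 2 : ℝ) = 1 / 2 + 1 by norm_num, Real.rpow_add hM1, Real.rpow_one,
          ← Real.sqrt_eq_rpow]
      rw [e1, hc]
      have h54 : Real.sqrt 54 ≤ 7.5 := by
        rw [Real.sqrt_le_left (by norm_num)]; norm_num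
      have : 0 ≤ Real.sqrt M * M := by positivity
      nlinarith

end Pool.Agent.X96.LV
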